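import Mathlib

/-! Interpolation between two moments, and the numerical part. -/

set_option autoImplicit false

namespace Pool.Agent.K6.H70.SI

open Finset

theorem point_split {x l q p0 p1 : ℝ} (hx : 0 ≤ x) (hl : 0 < l) (hp0 : 0 < p0) (h0 : p0 ≤ q)
    (h1 : q ≤ p1) : x ^ q ≤ l ^ (q - p0) * x ^ p0 + l ^ (q - p1) * x ^ p1 := by
  have a1 : 0 ≤ l ^ (q - p0) * x ^ p0 := mul_nonneg (Real.rpow_nonneg hl.le _) (Real.rpow_nonneg hx _)
  have a2 : 0 ≤ l ^ (q - p1) * x ^ p1 := mul_nonneg (Real.rpow_nonneg hl.le _) (Real.rpow_nonneg hx _)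
  rcases hx.eq_or_lt with h | h
  · rw [← h, Real.zero_rpow (by linarith)]
    rw [← h] at a1 a2
    linarith
  · rcases le_or_gt x l with hxl | hxl
    · have e : x ^ q = x ^ (q - p0) * x ^ p0 := by
        rw [← Real.rpow_add h]
        congr 1
        ring
      have h2 : x ^ (q - p0) ≤ l ^ (q - p0) := Real.rpow_le_rpow hx hxl (by linarith)
      rw [e]
      have := mul_le_mul_of_nonneg_right h2 (Real.rpow_nonneg hx p0)
      linarith
    · have e : x ^ q = x ^ (q - p1) * x ^ p1 := by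
        rw [← Real.rpow_add h]
        congr 1
        ring
      have h2 : x ^ (q - p1) ≤ l ^ (q - p1) := Real.rpow_le_rpow_of_nonpos hl hxl.le (by linarith)
      rw [e]
      have := mul_le_mul_of_nonneg_right h2 (Real.rpow_nonneg hx p1)
      linarith

theorem interp {ι : Type*} (s : Finset ι) (x : ι → ℝ) (hx : ∀ i ∈ s, 0 ≤ x i) {p0 p1 θ B0 B1 : ℝ}
    (hp0 : 0 < p0) (hp : p0 < p1) (hθ0 : 0 ≤ θ) (hθ1 : θ ≤ 1) (hB0 : 0 < B0) (hB1 : 0 < B1)
    (h0 : ∑ i ∈ s, x i ^ p0 ≤ B0) (h1 : ∑ i ∈ s, x i ^ p1 ≤ B1) :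
    ∑ i ∈ s, x i ^ (p0 + θ * (p1 - p0)) ≤ 2 * (B0 ^ (1 - θ) * B1 ^ θ) := by
  set l : ℝ := (B1 / B0) ^ (1 / (p1 - p0)) with hl
  have hpp : 0 < p1 - p0 := by linarith
  have hBB : 0 < B1 / B0 := by positivity
  have hl0 : 0 < l := by positivity
  set q : ℝ := p0 + θ * (p1 - p0) with hq
  have hq0 : p0 ≤ q := by
    have : 0 ≤ θ * (p1 - p0) := by positivity
    linarith
  have hq1 : q ≤ p1 := by
    have : θ * (p1 - p0) ≤ 1 * (p1 - p0) := mul_le_mul_of_nonneg_right hθ1 hpp.le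
    linarith
  have h2 : ∑ i ∈ s, x i ^ q ≤ l ^ (q - p0) * B0 + l ^ (q - p1) * B1 := by
    calc ∑ i ∈ s, x i ^ q ≤ ∑ i ∈ s, (l ^ (q - p0) * x i ^ p0 + l ^ (q - p1) * x i ^ p1) :=
          sum_le_sum fun i hi => point_split (hx i hi) hl0 hp0 hq0 hq1
      _ = l ^ (q - p0) * ∑ i ∈ s, x i ^ p0 + l ^ (q - p1) * ∑ i ∈ s, x i ^ p1 := by
          rw [sum_add_distrib, mul_sum, mul_sum]
      _ ≤ _ := by gcongr
  refine h2.trans (le_of_eq ?_)
  have e1 : l ^ (q - p0) * B0 = B0 ^ (1 - θ) * B1 ^ θ := by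
    rw [hl, ← Real.rpow_mul hBB.le]
    have : 1 / (p1 - p0) * (q - p0) = θ := by
      rw [hq]
      field_simp
      ring
    rw [this, Real.div_rpow hB1.le hB0.le, Real.rpow_sub hB0, Real.rpow_one]
    field_simp
  have e2 : l ^ (q - p1) * B1 = B0 ^ (1 - θ) * B1 ^ θ := by
    rw [hl, ← Real.rpow_mul hBB.le]
    have : 1 / (p1 - p0) * (q - p1) = θ - 1 := by
      rw [hq]
      field_simp
      ring
    rw [this, Real.div_rpow hB1.le hB0.le, Real.rpow_sub hB1, Real.rpow_one]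
    have e3 : B0 ^ (θ - 1) = (B0 ^ (1 - θ))⁻¹ := by
      rw [← Real.rpow_neg hB0.le]
      congr 1
      ring
    rw [e3]
    field_simp
  rw [e1, e2]
  ring

theorem exp_conv {θ A B : ℝ} (h0 : 0 ≤ θ) (h1 : θ ≤ 1) :
    Real.exp (θ * A + (1 - θ) * B) ≤ Real.exp A + Real.exp B := by
  have hA := Real.exp_pos A
  have hB := Real.exp_pos B
  rcases le_total A B with h | h
  · have : θ * A + (1 - θ) * B ≤ B := by nlinarith
    have := Real.exp_le_exp.2 this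
    linarith
  · have : θ * A + (1 - θ) * B ≤ A := by nlinarith
    have := Real.exp_le_exp.2 this
    linarith

theorem rpow_exp {x : ℝ} (hx : 0 < x) (y : ℝ) : x ^ y = Real.exp (y * Real.log x) := by
  rw [Real.rpow_def_of_pos hx, mul_comm]

/-- the numerical part for `2 ≤ q ≤ 4` -/
theorem num1 {N T K r κ ρ θ : ℝ} (hN : 1 ≤ N) (hT : N ≤ T) (hK : 1 ≤ K) (hr : 1 ≤ r)
    (hKκ : K ≤ 2 * N ^ κ) (hrK : r * K ≤ 2 * N) (hrρ : N ^ ρ ≤ r) (hθ0 : 0 ≤ θ) (hθ1 : θ ≤ 1)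
    (hcond : κ * (1 + 2 * θ) ≤ 1 + θ + ρ * θ + θ ^ 2) :
    ((T + N) * K) ^ (1 - θ) * (T * K ^ 2 + N ^ 2 * K / r ^ 2 + N * K ^ 3 / r) ^ θ ≤
      28 * (N ^ (2 + 2 * θ) + N ^ (1 + θ) * T) := by
  have hN0 : 0 < N := by linarith
  have hT0 : 0 < T := by linarith
  have hK0 : 0 < K := by linarith
  have hr0 : 0 < r := by linarith
  set lN := Real.log N with hlN
  set lT := Real.log T with hlT
  set lK := Real.log K with hlK
  set lr := Real.log r with hlr
  have hlN0 : 0 ≤ lN := Real.log_nonneg hN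
  have hlNT : lN ≤ lT := Real.log_le_log hN0 hT
  have hlK0 : 0 ≤ lK := Real.log_nonneg hK
  have hlr0 : 0 ≤ lr := Real.log_nonneg hr
  have hl2 : 0 < Real.log 2 := Real.log_pos (by norm_num)
  have c1 : lK ≤ Real.log 2 + κ * lN := by
    have := Real.log_le_log hK0 hKκ
    rwa [Real.log_mul (by norm_num) (by positivity), Real.log_rpow hN0] at this
  have c2 : lr + lK ≤ Real.log 2 + lN := by
    have := Real.log_le_log (by positivity) hrK
    rwa [Real.log_mul (by positivity) (by positivity), Real.log_mul (by norm_num) hN0.ne'] at this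
  have c3 : ρ * lN ≤ lr := by
    have := Real.log_le_log (by positivity) hrρ
    rwa [Real.log_rpow hN0] at this
  have h1θ : 0 ≤ 1 - θ := by linarith
  -- the first factor
  have f1 : ((T + N) * K) ^ (1 - θ) ≤ 2 * (T * K) ^ (1 - θ) := by
    calc ((T + N) * K) ^ (1 - θ) ≤ (2 * (T * K)) ^ (1 - θ) := by
          apply Real.rpow_le_rpow (by positivity) _ h1θ
          nlinarith
      _ = 2 ^ (1 - θ) * (T * K) ^ (1 - θ) := Real.mul_rpow (by norm_num) (by positivity)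
      _ ≤ 2 ^ (1 : ℝ) * (T * K) ^ (1 - θ) := by
          apply mul_le_mul_of_nonneg_right _ (by positivity)
          exact Real.rpow_le_rpow_of_exponent_le (by norm_num) (by linarith)
      _ = _ := by rw [Real.rpow_one]
  have f2 : (T * K ^ 2 + N ^ 2 * K / r ^ 2 + N * K ^ 3 / r) ^ θ ≤
      (T * K ^ 2) ^ θ + (N ^ 2 * K / r ^ 2) ^ θ + (N * K ^ 3 / r) ^ θ := by
    refine (Real.rpow_add_le_add_rpow (by positivity) (by positivity) hθ0 hθ1).trans ?_
    have := Real.rpow_add_le_add_rpow (a := T * K ^ 2) (b := N ^ 2 * K / r ^ 2) (by positivity)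
      (by positivity) hθ0 hθ1
    linarith
  have g0 : (T * K) ^ (1 - θ) = Real.exp ((1 - θ) * (lT + lK)) := by
    rw [rpow_exp (by positivity), Real.log_mul hT0.ne' hK0.ne']
  have g1 : (T * K ^ 2) ^ θ = Real.exp (θ * (lT + 2 * lK)) := by
    rw [rpow_exp (by positivity), Real.log_mul hT0.ne' (by positivity), Real.log_pow]
    push_cast
    rfl
  have g2 : (N ^ 2 * K / r ^ 2) ^ θ = Real.exp (θ * (2 * lN + lK - 2 * lr)) := by
    rw [rpow_exp (by positivity), Real.log_div (by positivity) (by positivity),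
      Real.log_mul (by positivity) hK0.ne', Real.log_pow, Real.log_pow]
    push_cast
    rfl
  have g3 : (N * K ^ 3 / r) ^ θ = Real.exp (θ * (lN + 3 * lK - lr)) := by
    rw [rpow_exp (by positivity), Real.log_div (by positivity) (by positivity),
      Real.log_mul (by positivity) (by positivity), Real.log_pow]
    push_cast
    rfl
  have t1 : N ^ (2 + 2 * θ) = Real.exp ((2 + 2 * θ) * lN) := rpow_exp hN0 _
  have t2 : N ^ (1 + θ) * T = Real.exp ((1 + θ) * lN + lT) := by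
    rw [rpow_exp hN0, Real.exp_add, Real.exp_log hT0]
  have e2 : (2 : ℝ) = Real.exp (Real.log 2) := (Real.exp_log (by norm_num)).symm
  -- the three terms
  have u1 : (T * K) ^ (1 - θ) * (T * K ^ 2) ^ θ ≤ 4 * (N ^ (1 + θ) * T) := by
    rw [g0, g1, ← Real.exp_add, t2]
    have : (4 : ℝ) = Real.exp (2 * Real.log 2) := by
      rw [two_mul, Real.exp_add, ← e2]; norm_num
    rw [this, ← Real.exp_add]
    apply Real.exp_le_exp.2
    have : (1 + θ) * lK ≤ (1 + θ) * (Real.log 2 + lN) :=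
      mul_le_mul_of_nonneg_left (by linarith) (by linarith)
    nlinarith
  have u2 : (T * K) ^ (1 - θ) * (N ^ 2 * K / r ^ 2) ^ θ ≤ 2 * (N ^ (1 + θ) * T) := by
    rw [g0, g2, ← Real.exp_add, t2]
    rw [e2, ← Real.exp_add]
    apply Real.exp_le_exp.2
    have a1 : θ * lN ≤ θ * lT := mul_le_mul_of_nonneg_left hlNT hθ0
    have a2 : 0 ≤ θ * lr := by positivity
    rw [← e2]
    nlinarith
  have u3 : (T * K) ^ (1 - θ) * (N * K ^ 3 / r) ^ θ ≤ 8 * (N ^ (2 + 2 * θ) + N ^ (1 + θ) * T) := by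
    rw [g0, g3, ← Real.exp_add, t2, t1]
    have h8 : (8 : ℝ) = Real.exp (3 * Real.log 2) := by
      have : 3 * Real.log 2 = Real.log 2 + Real.log 2 + Real.log 2 := by ring
      rw [this, Real.exp_add, Real.exp_add, ← e2]; norm_num
    have h5 : (1 - θ) * (lT + lK) + θ * (lN + 3 * lK - lr) ≤
        3 * Real.log 2 + (θ * ((2 + 2 * θ) * lN) + (1 - θ) * ((1 + θ) * lN + lT)) := by
      have a1 : (1 + 2 * θ) * lK ≤ (1 + 2 * θ) * (Real.log 2 + κ * lN) :=
        mul_le_mul_of_nonneg_left c1 (by linarith)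
      have a2 : θ * (ρ * lN) ≤ θ * lr := mul_le_mul_of_nonneg_left c3 hθ0
      have a3 : κ * (1 + 2 * θ) * lN ≤ (1 + θ + ρ * θ + θ ^ 2) * lN :=
        mul_le_mul_of_nonneg_right hcond hlN0
      have a4 : θ * Real.log 2 ≤ 1 * Real.log 2 := mul_le_mul_of_nonneg_right hθ1 hl2.le
      nlinarith
    calc _ ≤ Real.exp (3 * Real.log 2 + (θ * ((2 + 2 * θ) * lN) + (1 - θ) * ((1 + θ) * lN + lT))) :=
          Real.exp_le_exp.2 h5
      _ = 8 * Real.exp (θ * ((2 + 2 * θ) * lN) + (1 - θ) * ((1 + θ) * lN + lT)) := by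
          rw [Real.exp_add, ← h8]
      _ ≤ _ := mul_le_mul_of_nonneg_left (exp_conv hθ0 hθ1) (by norm_num)
  have hNq : 0 ≤ N ^ (2 + 2 * θ) := by positivity
  have hNT : 0 ≤ N ^ (1 + θ) * T := by positivity
  calc _ ≤ (2 * (T * K) ^ (1 - θ)) * ((T * K ^ 2) ^ θ + (N ^ 2 * K / r ^ 2) ^ θ + (N * K ^ 3 / r) ^ θ) :=
        mul_le_mul f1 f2 (by positivity) (by positivity)
    _ = 2 * ((T * K) ^ (1 - θ) * (T * K ^ 2) ^ θ + (T * K) ^ (1 - θ) * (N ^ 2 * K / r ^ 2) ^ θ +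
        (T * K) ^ (1 - θ) * (N * K ^ 3 / r) ^ θ) := by ring
    _ ≤ 2 * (4 * (N ^ (1 + θ) * T) + 2 * (N ^ (1 + θ) * T) + 8 * (N ^ (2 + 2 * θ) + N ^ (1 + θ) * T)) := by
        linarith
    _ ≤ _ := by linarith

/-- the numerical part for `q ≥ 4` -/
theorem num2 {N T K θ : ℝ} {m : ℕ} (hm : 2 ≤ m) (hN : 1 ≤ N) (hT : 1 ≤ T) (hK : 1 ≤ K)
    (hK2 : K ≤ 2 * N ^ (8 / 9 : ℝ)) (hθ0 : 0 ≤ θ) (hθ1 : θ ≤ 1) :
    ((T + N ^ m) * K ^ m) ^ (1 - θ) * ((T + N ^ (m + 1)) * K ^ (m + 1)) ^ θ ≤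
      4 * 2 ^ (m + 1) * (N ^ (2 * ((m : ℝ) + θ)) + N ^ ((m : ℝ) + θ) * T) := by
  have hN0 : 0 < N := by linarith
  have hT0 : 0 < T := by linarith
  have hK0 : 0 < K := by linarith
  have hm2 : (2 : ℝ) ≤ m := by exact_mod_cast hm
  set lN := Real.log N with hlN
  set lT := Real.log T with hlT
  set lK := Real.log K with hlK
  have hlN0 : 0 ≤ lN := Real.log_nonneg hN
  have hlT0 : 0 ≤ lT := Real.log_nonneg hT
  have hlK0 : 0 ≤ lK := Real.log_nonneg hK
  have hl2 : 0 < Real.log 2 := Real.log_pos (by norm_num)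
  have c1 : lK ≤ Real.log 2 + 8 / 9 * lN := by
    have := Real.log_le_log hK0 hK2
    rwa [Real.log_mul (by norm_num) (by positivity), Real.log_rpow hN0] at this
  have h1θ : 0 ≤ 1 - θ := by linarith
  have f1 : (T + N ^ m) ^ (1 - θ) ≤ Real.exp ((1 - θ) * lT) + Real.exp ((1 - θ) * (m * lN)) := by
    refine (Real.rpow_add_le_add_rpow (by positivity) (by positivity) h1θ (by linarith)).trans
      (le_of_eq ?_)
    rw [rpow_exp hT0, rpow_exp (by positivity : 0 < N ^ m), Real.log_pow]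
  have f2 : (T + N ^ (m + 1)) ^ θ ≤ Real.exp (θ * lT) + Real.exp (θ * ((m + 1) * lN)) := by
    refine (Real.rpow_add_le_add_rpow (by positivity) (by positivity) hθ0 hθ1).trans
      (le_of_eq ?_)
    rw [rpow_exp hT0, rpow_exp (by positivity : 0 < N ^ (m + 1)), Real.log_pow]
    push_cast
    rfl
  have f3 : (K ^ m) ^ (1 - θ) * (K ^ (m + 1)) ^ θ = Real.exp ((m + θ) * lK) := by
    rw [rpow_exp (by positivity : 0 < K ^ m), rpow_exp (by positivity : 0 < K ^ (m + 1)),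
      ← Real.exp_add, Real.log_pow, Real.log_pow]
    congr 1
    push_cast
    ring
  have f4 : Real.exp ((m + θ) * lK) ≤ 2 ^ (m + 1) * Real.exp ((m + θ) * (8 / 9 * lN)) := by
    have h2 : (2 : ℝ) ^ (m + 1) = Real.exp ((m + 1) * Real.log 2) := by
      rw [← Real.rpow_natCast, rpow_exp (by norm_num)]
      push_cast
      rfl
    rw [h2, ← Real.exp_add]
    apply Real.exp_le_exp.2
    have a1 : (m + θ) * lK ≤ (m + θ) * (Real.log 2 + 8 / 9 * lN) :=
      mul_le_mul_of_nonneg_left c1 (by linarith)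
    have a2 : θ * Real.log 2 ≤ 1 * Real.log 2 := mul_le_mul_of_nonneg_right hθ1 hl2.le
    linarith
  set E : ℝ := N ^ (2 * ((m : ℝ) + θ)) + N ^ ((m : ℝ) + θ) * T with hE
  have t1 : N ^ (2 * ((m : ℝ) + θ)) = Real.exp (2 * (m + θ) * lN) := rpow_exp hN0 _
  have t2 : N ^ ((m : ℝ) + θ) * T = Real.exp ((m + θ) * lN + lT) := by
    rw [rpow_exp hN0, Real.exp_add, Real.exp_log hT0]
  have hmθ : 0 ≤ (m : ℝ) + θ := by linarith
  have hmθN : 0 ≤ ((m : ℝ) + θ) * lN := by positivity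
  have hE1 : Real.exp (2 * (m + θ) * lN) ≤ E := by
    rw [hE, t1, t2]
    linarith [Real.exp_pos ((m + θ) * lN + lT)]
  have hE2 : Real.exp ((m + θ) * lN + lT) ≤ E := by
    rw [hE, t1, t2]
    linarith [Real.exp_pos (2 * (m + θ) * lN)]
  have hEc : ∀ σ : ℝ, 0 ≤ σ → σ ≤ 1 →
      Real.exp (σ * (2 * (m + θ) * lN) + (1 - σ) * ((m + θ) * lN + lT)) ≤ E := by
    intro σ h0 h1
    refine (exp_conv h0 h1).trans (le_of_eq ?_)
    rw [hE, t1, t2]
  -- the four terms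
  have u1 : Real.exp ((1 - θ) * lT) * Real.exp (θ * lT) * Real.exp ((m + θ) * (8 / 9 * lN)) ≤ E := by
    rw [← Real.exp_add, ← Real.exp_add]
    refine le_trans (Real.exp_le_exp.2 ?_) hE2
    nlinarith
  have u2 : Real.exp ((1 - θ) * lT) * Real.exp (θ * ((m + 1) * lN)) *
      Real.exp ((m + θ) * (8 / 9 * lN)) ≤ E := by
    rw [← Real.exp_add, ← Real.exp_add]
    refine le_trans (Real.exp_le_exp.2 ?_) (hEc θ hθ0 hθ1)
    have h1 : (8 / 9 : ℝ) * (m + θ) ≤ m + θ ^ 2 := by nlinarith [sq_nonneg (θ - 4 / 9)]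
    have h2 := mul_le_mul_of_nonneg_right h1 hlN0
    nlinarith
  have u3 : Real.exp ((1 - θ) * (m * lN)) * Real.exp (θ * lT) *
      Real.exp ((m + θ) * (8 / 9 * lN)) ≤ E := by
    rw [← Real.exp_add, ← Real.exp_add]
    have h0 := hEc (1 - θ) h1θ (by linarith)
    refine le_trans (Real.exp_le_exp.2 ?_) h0
    have h1 : (1 - θ) * m + 8 / 9 * (m + θ) ≤ (1 - θ) * (2 * (m + θ)) + θ * (m + θ) := by
      nlinarith
    have h2 := mul_le_mul_of_nonneg_right h1 hlN0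
    nlinarith
  have u4 : Real.exp ((1 - θ) * (m * lN)) * Real.exp (θ * ((m + 1) * lN)) *
      Real.exp ((m + θ) * (8 / 9 * lN)) ≤ E := by
    rw [← Real.exp_add, ← Real.exp_add]
    refine le_trans (Real.exp_le_exp.2 ?_) hE1
    nlinarith
  have g1 : ((T + N ^ m) * K ^ m) ^ (1 - θ) * ((T + N ^ (m + 1)) * K ^ (m + 1)) ^ θ =
      ((T + N ^ m) ^ (1 - θ) * (T + N ^ (m + 1)) ^ θ) * ((K ^ m) ^ (1 - θ) * (K ^ (m + 1)) ^ θ) := by
    rw [Real.mul_rpow (by positivity) (by positivity), Real.mul_rpow (by positivity) (by positivity)]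
    ring
  rw [g1, f3]
  calc _ ≤ ((Real.exp ((1 - θ) * lT) + Real.exp ((1 - θ) * (m * lN))) *
        (Real.exp (θ * lT) + Real.exp (θ * ((m + 1) * lN)))) *
        (2 ^ (m + 1) * Real.exp ((m + θ) * (8 / 9 * lN))) := by
        apply mul_le_mul _ f4 (Real.exp_pos _).le (by positivity)
        exact mul_le_mul f1 f2 (by positivity) (by positivity)
    _ = 2 ^ (m + 1) * (Real.exp ((1 - θ) * lT) * Real.exp (θ * lT) * Real.exp ((m + θ) * (8 / 9 * lN)) +
        Real.exp ((1 - θ) * lT) * Real.exp (θ * ((m + 1) * lN)) * Real.exp ((m + θ) * (8 / 9 * lN)) +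
        Real.exp ((1 - θ) * (m * lN)) * Real.exp (θ * lT) * Real.exp ((m + θ) * (8 / 9 * lN)) +
        Real.exp ((1 - θ) * (m * lN)) * Real.exp (θ * ((m + 1) * lN)) *
          Real.exp ((m + θ) * (8 / 9 * lN))) := by ring
    _ ≤ 2 ^ (m + 1) * (E + E + E + E) := by
        apply mul_le_mul_of_nonneg_left _ (by positivity)
        linarith
    _ = _ := by ring

/-- the condition on the exponents -/
theorem cond {κ ρ : ℝ} (hρ1 : ρ ≤ 1) (hκ : 2 * κ ≤ ρ + Real.sqrt (3 - 2 * ρ)) {θ : ℝ} (hθ : 0 ≤ θ) :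
    κ * (1 + 2 * θ) ≤ 1 + θ + ρ * θ + θ ^ 2 := by
  have hs := Real.sq_sqrt (by linarith : (0 : ℝ) ≤ 3 - 2 * ρ)
  set s := Real.sqrt (3 - 2 * ρ) with hs'
  have h1 : 2 * κ * (1 + 2 * θ) ≤ (ρ + s) * (1 + 2 * θ) := mul_le_mul_of_nonneg_right hκ (by linarith)
  nlinarith [sq_nonneg (s - (1 + 2 * θ))]

theorem kap_le {κ ρ : ℝ} (hρ1 : ρ ≤ 1) (hκ : 2 * κ ≤ ρ + Real.sqrt (3 - 2 * ρ)) (h : ρ ≤ 1 / 9) :
    κ ≤ 8 / 9 := by
  have h1 : Real.sqrt (3 - 2 * ρ) ≤ 16 / 9 - ρ := by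
    rw [Real.sqrt_le_left (by linarith)]
    nlinarith
  linarith

end Pool.Agent.K6.H70.SI
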