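import Pool.Agent.K6.H70.SI.Mom
import Pool.Agent.K6.H70.SI.Interp

/-! The inequality for all exponents. -/

set_option autoImplicit false

namespace Pool.Agent.K6.H70.SI

open Finset

theorem combine {ι : Type*} (s : Finset ι) (x : ι → ℝ) (hx : ∀ i ∈ s, 0 ≤ x i)
    {p0 p1 θ C1 C2 P b0 b1 c E : ℝ} (hp0 : 0 < p0) (hp : p0 < p1) (hθ0 : 0 ≤ θ) (hθ1 : θ ≤ 1)
    (hC1 : 1 ≤ C1) (hC2 : 1 ≤ C2) (hP : 0 < P) (hb0 : 0 < b0) (hb1 : 0 < b1)
    (h0 : ∑ i ∈ s, x i ^ p0 ≤ C1 * P * b0) (h1 : ∑ i ∈ s, x i ^ p1 ≤ C2 * P * b1)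
    (hE : b0 ^ (1 - θ) * b1 ^ θ ≤ c * E) :
    ∑ i ∈ s, x i ^ (p0 + θ * (p1 - p0)) ≤ (2 * C1 * C2 * c) * P * E := by
  have hC10 : 0 < C1 := by linarith
  have hC20 : 0 < C2 := by linarith
  have h2 := interp s x hx hp0 hp hθ0 hθ1 (by positivity) (by positivity) h0 h1
  refine h2.trans ?_
  have e1 : (C1 * P * b0) ^ (1 - θ) * (C2 * P * b1) ^ θ =
      (C1 ^ (1 - θ) * C2 ^ θ) * P * (b0 ^ (1 - θ) * b1 ^ θ) := by
    rw [Real.mul_rpow (by positivity) hb0.le, Real.mul_rpow hC10.le hP.le,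
      Real.mul_rpow (by positivity) hb1.le, Real.mul_rpow hC20.le hP.le]
    have : P = P ^ (1 - θ) * P ^ θ := by
      rw [← Real.rpow_add hP]
      norm_num
    nth_rewrite 3 [this]
    ring
  rw [e1]
  have e2 : C1 ^ (1 - θ) ≤ C1 := by
    calc C1 ^ (1 - θ) ≤ C1 ^ (1 : ℝ) := Real.rpow_le_rpow_of_exponent_le hC1 (by linarith)
      _ = C1 := Real.rpow_one _
  have e3 : C2 ^ θ ≤ C2 := by
    calc C2 ^ θ ≤ C2 ^ (1 : ℝ) := Real.rpow_le_rpow_of_exponent_le hC2 hθ1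
      _ = C2 := Real.rpow_one _
  have hbb : 0 ≤ b0 ^ (1 - θ) * b1 ^ θ := by positivity
  calc 2 * ((C1 ^ (1 - θ) * C2 ^ θ) * P * (b0 ^ (1 - θ) * b1 ^ θ)) ≤
      2 * ((C1 * C2) * P * (c * E)) := by gcongr
    _ = _ := by ring

theorem main_S {κ ρ : ℝ} (hρ1 : ρ ≤ 1) (hκ : 2 * κ ≤ ρ + Real.sqrt (3 - 2 * ρ)) {q ε : ℝ}
    (hq : 2 ≤ q) (hε : 0 < ε) : ∃ C : ℝ, 0 ≤ C ∧ ∀ (N K T : ℕ) (a r : ℤ) (S : Finset ℕ),
    1 ≤ r → r ≤ N → 1 ≤ K → r * K ≤ 2 * N → (∀ n ∈ S, N ≤ n ∧ n ≤ 2 * N) →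
    (∀ n ∈ S, ∃ k : ℤ, 0 ≤ k ∧ k < K ∧ (n : ℤ) = a + r * k) → N ≤ T →
    (N : ℝ) ^ ρ ≤ r → (K : ℝ) ≤ 2 * (N : ℝ) ^ κ → ∀ b : ℕ → ℂ,
    (∀ n, ‖b n‖ ≤ 1) → ∑ t ∈ Icc (1 : ℕ) T, ‖G S b t‖ ^ q ≤ C * (N : ℝ) ^ ε *
      ((N : ℝ) ^ q + (N : ℝ) ^ (q / 2) * T) := by
  classical
  rcases le_or_gt q 4 with hq4 | hq4
  · obtain ⟨C1, hC1, h1⟩ := mom_eps 1 le_rfl ε hε
    obtain ⟨C2, hC2, h2⟩ := four_eps ε hε
    refine ⟨2 * C1 * C2 * 28, by positivity, ?_⟩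
    intro N K T a r S hr hrN hK hrK hS hSa hNT hrρ hKκ b hb
    have hN1' : 1 ≤ N := by
      have : (1 : ℤ) ≤ N := hr.trans hrN
      exact_mod_cast this
    have hN1 : (1 : ℝ) ≤ N := by exact_mod_cast hN1'
    have hN0 : (0 : ℝ) < N := by linarith
    have hT1 : 1 ≤ T := hN1'.trans hNT
    have hNT' : (N : ℝ) ≤ T := by exact_mod_cast hNT
    have hT0 : (0 : ℝ) < T := by linarith
    have hK1 : (1 : ℝ) ≤ K := by exact_mod_cast hK
    have hK0 : (0 : ℝ) < K := by linarith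
    have hr1 : (1 : ℝ) ≤ r := by exact_mod_cast hr
    have hr0 : (0 : ℝ) < r := by linarith
    have hrK' : (r : ℝ) * K ≤ 2 * N := by exact_mod_cast hrK
    set θ : ℝ := (q - 2) / 2 with hθ
    have hθ0 : 0 ≤ θ := by rw [hθ]; linarith
    have hθ1 : θ ≤ 1 := by rw [hθ]; linarith
    have hSK : S.card ≤ K := by
      choose! k hk using hSa
      have h3 : S.card ≤ (Ico (0 : ℤ) K).card := by
        apply card_le_card_of_injOn k
        · intro n hn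
          rw [mem_coe, mem_Ico]
          exact ⟨(hk n hn).1, (hk n hn).2.1⟩
        · intro n hn m hm h
          have h2 := (hk n hn).2.2
          have h3 := (hk m hm).2.2
          rw [h] at h2
          exact_mod_cast h2.trans h3.symm
      rw [Int.card_Ico] at h3
      omega
    have a1 := h1 N T K hN1' hT1 S hS hSK b hb
    have a2 := h2 N K T a r S hr hrN hK hrK hS hSa hT1 b hb
    have hnum := num1 (N := N) (T := T) (K := K) (r := r) (κ := κ) (ρ := ρ) (θ := θ) hN1 hNT' hK1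
      hr1 hKκ hrK' hrρ hθ0 hθ1 (cond hρ1 hκ hθ0)
    have b1 : ∑ t ∈ Icc (1 : ℕ) T, ‖G S b t‖ ^ (2 : ℝ) ≤ C1 * (N : ℝ) ^ ε * ((T + N) * K) := by
      have : ∀ t : ℕ, ‖G S b t‖ ^ (2 : ℝ) = ‖G S b t‖ ^ (2 * 1) := by
        intro t
        rw [← Real.rpow_natCast]
        norm_num
      simp only [this]
      simpa only [pow_one] using a1
    have b2 : ∑ t ∈ Icc (1 : ℕ) T, ‖G S b t‖ ^ (4 : ℝ) ≤ C2 * (N : ℝ) ^ ε *
        (T * (K : ℝ) ^ 2 + (N : ℝ) ^ 2 * K / (r : ℝ) ^ 2 + N * (K : ℝ) ^ 3 / r) := by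
      have : ∀ t : ℕ, ‖G S b t‖ ^ (4 : ℝ) = ‖G S b t‖ ^ 4 := by
        intro t
        rw [← Real.rpow_natCast]
        norm_num
      simp only [this]
      exact a2
    have hcomb := combine (Icc (1 : ℕ) T) (fun t => ‖G S b t‖) (fun _ _ => norm_nonneg _)
      (p0 := 2) (p1 := 4) (by norm_num) (by norm_num) hθ0 hθ1 hC1 hC2 (by positivity) (by positivity)
      (by positivity) b1 b2 hnum
    have e1 : 2 + θ * (4 - 2) = q := by rw [hθ]; ring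
    have e2 : 2 + 2 * θ = q := by rw [hθ]; ring
    have e3 : 1 + θ = q / 2 := by rw [hθ]; ring
    rw [e1, e2, e3] at hcomb
    exact hcomb
  · set m : ℕ := ⌊q / 2⌋₊ with hm
    have hm1 : (m : ℝ) ≤ q / 2 := Nat.floor_le (by linarith)
    have hm2 : q / 2 < m + 1 := Nat.lt_floor_add_one _
    have hm3 : 2 ≤ m := Nat.le_floor (by push_cast; linarith)
    have hm3' : (2 : ℝ) ≤ m := by exact_mod_cast hm3
    obtain ⟨C1, hC1, h1⟩ := mom_eps m (by omega) ε hε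
    obtain ⟨C2, hC2, h2⟩ := mom_eps (m + 1) (by omega) ε hε
    refine ⟨2 * C1 * C2 * (4 * 2 ^ (m + 1)), by positivity, ?_⟩
    intro N K T a r S hr hrN hK hrK hS hSa hNT hrρ hKκ b hb
    have hN1' : 1 ≤ N := by
      have : (1 : ℤ) ≤ N := hr.trans hrN
      exact_mod_cast this
    have hN1 : (1 : ℝ) ≤ N := by exact_mod_cast hN1'
    have hN0 : (0 : ℝ) < N := by linarith
    have hT1 : 1 ≤ T := hN1'.trans hNT
    have hT1' : (1 : ℝ) ≤ T := by exact_mod_cast hT1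
    have hT0 : (0 : ℝ) < T := by linarith
    have hK1 : (1 : ℝ) ≤ K := by exact_mod_cast hK
    have hK0 : (0 : ℝ) < K := by linarith
    have hr1 : (1 : ℝ) ≤ r := by exact_mod_cast hr
    have hr0 : (0 : ℝ) < r := by linarith
    have hrK' : (r : ℝ) * K ≤ 2 * N := by exact_mod_cast hrK
    set θ : ℝ := q / 2 - m with hθ
    have hθ0 : 0 ≤ θ := by rw [hθ]; linarith
    have hθ1 : θ ≤ 1 := by rw [hθ]; linarith
    have hSK : S.card ≤ K := by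
      choose! k hk using hSa
      have h3 : S.card ≤ (Ico (0 : ℤ) K).card := by
        apply card_le_card_of_injOn k
        · intro n hn
          rw [mem_coe, mem_Ico]
          exact ⟨(hk n hn).1, (hk n hn).2.1⟩
        · intro n hn m hm h
          have h2 := (hk n hn).2.2
          have h3 := (hk m hm).2.2
          rw [h] at h2
          exact_mod_cast h2.trans h3.symm
      rw [Int.card_Ico] at h3
      omega
    have hK89 : (K : ℝ) ≤ 2 * (N : ℝ) ^ (8 / 9 : ℝ) := by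
      rcases le_or_gt ρ (1 / 9) with h | h
      · refine hKκ.trans (mul_le_mul_of_nonneg_left ?_ (by norm_num))
        exact Real.rpow_le_rpow_of_exponent_le hN1 (kap_le hρ1 hκ h)
      · have h3 : (N : ℝ) ^ (1 / 9 : ℝ) ≤ r :=
          (Real.rpow_le_rpow_of_exponent_le hN1 h.le).trans hrρ
        have h4 : (N : ℝ) = (N : ℝ) ^ (1 / 9 : ℝ) * (N : ℝ) ^ (8 / 9 : ℝ) := by
          rw [← Real.rpow_add hN0]
          norm_num
        have h5 : (N : ℝ) ^ (1 / 9 : ℝ) * K ≤ (N : ℝ) ^ (1 / 9 : ℝ) * (2 * (N : ℝ) ^ (8 / 9 : ℝ)) := by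
          calc (N : ℝ) ^ (1 / 9 : ℝ) * K ≤ r * K := mul_le_mul_of_nonneg_right h3 hK0.le
            _ ≤ 2 * N := hrK'
            _ = 2 * ((N : ℝ) ^ (1 / 9 : ℝ) * (N : ℝ) ^ (8 / 9 : ℝ)) := by rw [← h4]
            _ = _ := by ring
        exact le_of_mul_le_mul_left h5 (by positivity)
    have a1 := h1 N T K hN1' hT1 S hS hSK b hb
    have a2 := h2 N T K hN1' hT1 S hS hSK b hb
    have hnum := num2 (N := N) (T := T) (K := K) (θ := θ) hm3 hN1 hT1' hK1 hK89 hθ0 hθ1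
    have b1 : ∑ t ∈ Icc (1 : ℕ) T, ‖G S b t‖ ^ (2 * (m : ℝ)) ≤
        C1 * (N : ℝ) ^ ε * ((T + (N : ℝ) ^ m) * (K : ℝ) ^ m) := by
      have : ∀ t : ℕ, ‖G S b t‖ ^ (2 * (m : ℝ)) = ‖G S b t‖ ^ (2 * m) := by
        intro t
        rw [← Real.rpow_natCast]
        push_cast
        rfl
      simp only [this]
      exact a1
    have b2 : ∑ t ∈ Icc (1 : ℕ) T, ‖G S b t‖ ^ (2 * (m : ℝ) + 2) ≤
        C2 * (N : ℝ) ^ ε * ((T + (N : ℝ) ^ (m + 1)) * (K : ℝ) ^ (m + 1)) := by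
      have : ∀ t : ℕ, ‖G S b t‖ ^ (2 * (m : ℝ) + 2) = ‖G S b t‖ ^ (2 * (m + 1)) := by
        intro t
        rw [← Real.rpow_natCast]
        push_cast
        congr 1
        ring
      simp only [this]
      exact a2
    have hcomb := combine (Icc (1 : ℕ) T) (fun t => ‖G S b t‖) (fun _ _ => norm_nonneg _)
      (p0 := 2 * (m : ℝ)) (p1 := 2 * (m : ℝ) + 2) (by linarith) (by linarith) hθ0 hθ1 hC1 hC2
      (by positivity) (by positivity) (by positivity) b1 b2 hnum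
    have e1 : 2 * (m : ℝ) + θ * (2 * (m : ℝ) + 2 - 2 * (m : ℝ)) = q := by rw [hθ]; ring
    have e2 : 2 * ((m : ℝ) + θ) = q := by rw [hθ]; ring
    have e3 : (m : ℝ) + θ = q / 2 := by rw [hθ]; ring
    rw [e1, e2, e3] at hcomb
    exact hcomb

end Pool.Agent.K6.H70.SI
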