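import Pool.Agent.K6.H70.SI.Inner

/-! The sum over all quadruples with one fixed member: final bound. -/

set_option autoImplicit false

namespace Pool.Agent.K6.H70.SI

open Finset

/-- the bound for the kernel at the determinant `r Q` -/
noncomputable def fw (R Z : ℝ) (r Q : ℤ) : ℝ :=
  if |Q| < r then R ^ 2 else R * Z / (r * |(Q : ℝ)|)

theorem fw_nonneg {R Z : ℝ} (hR : 0 ≤ R) (hZ : 0 ≤ Z) {r : ℤ} (hr : 1 ≤ r) (Q : ℤ) :
    0 ≤ fw R Z r Q := by
  have hr0 : (0 : ℝ) < r := by exact_mod_cast (by omega : 0 < r)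
  unfold fw
  split_ifs <;> positivity

theorem split0 (M : ℕ) (hM : 1 ≤ M) (f : ℤ → ℝ) :
    ∑ s ∈ Ioo (-(M : ℤ)) M, f s = f 0 + ∑ s ∈ (Ioo (-(M : ℤ)) M).filter (fun s => s ≠ 0), f s := by
  rw [filter_ne', add_sum_erase]
  rw [mem_Ioo]
  omega

theorem cntsum (M N : ℕ) (hN : 1 ≤ N) (x c : ℝ) (hx : 0 ≤ x) (hc : 0 ≤ c) :
    ∑ m ∈ Icc 1 M, (if (m : ℝ) * N < x then c else 0) ≤ c * (x / N) := by
  rw [← sum_filter, sum_const, nsmul_eq_mul, mul_comm]
  apply mul_le_mul_of_nonneg_left _ hc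
  have hN0 : (0 : ℝ) < N := by exact_mod_cast hN
  have h1 : (Icc 1 M).filter (fun m : ℕ => (m : ℝ) * N < x) ⊆ Icc 1 ⌊x / N⌋₊ := by
    intro m hm
    rw [mem_filter, mem_Icc] at hm
    rw [mem_Icc]
    refine ⟨hm.1.1, Nat.le_floor ?_⟩
    rw [le_div_iff₀ hN0]
    exact hm.2.le
  have h2 := card_le_card h1
  rw [Nat.card_Icc, Nat.add_sub_cancel] at h2
  calc _ ≤ ((⌊x / N⌋₊ : ℕ) : ℝ) := by exact_mod_cast h2
    _ ≤ _ := Nat.floor_le (by positivity)

theorem row_le (R Z : ℝ) (r : ℤ) (z : ℤ) (Y : ℕ) :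
    ∑ y ∈ Ioo (-(Y : ℤ)) Y, fw R Z r (z + r * y) =
      R ^ 2 * (((Ioo (-(Y : ℤ)) Y).filter (fun y => |z + r * y| < r)).card : ℝ) +
      R * Z / r * ∑ y ∈ (Ioo (-(Y : ℤ)) Y).filter (fun y => r ≤ |z + r * y|),
        (1 : ℝ) / |((z + r * y : ℤ) : ℝ)| := by
  rw [← sum_filter_add_sum_filter_not _ (fun y => |z + r * y| < r)]
  congr 1
  · have h1 : ∀ y ∈ (Ioo (-(Y : ℤ)) Y).filter (fun y => |z + r * y| < r),
        fw R Z r (z + r * y) = R ^ 2 := by
      intro y hy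
      unfold fw
      rw [if_pos (mem_filter.1 hy).2]
    rw [sum_congr rfl h1, sum_const, nsmul_eq_mul, mul_comm]
  · rw [mul_sum]
    simp only [not_lt]
    apply sum_congr rfl
    intro y hy
    unfold fw
    rw [if_neg (not_lt.2 (mem_filter.1 hy).2), div_mul_div_comm, mul_one]

theorem total {R Z : ℝ} (hR : 0 ≤ R) (hZ : 0 ≤ Z) (K N n M : ℕ) (r : ℤ) (hr : 1 ≤ r) (hrN : r ≤ N)
    (hK : 1 ≤ K) (hrK : r * K ≤ 2 * N) (hn : N ≤ n) (hM : 2 * K * n + K ^ 2 + 1 ≤ M) (Dv : ℝ)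
    (hDv1 : 1 ≤ Dv) (hDv : ∀ m : ℕ, 1 ≤ m → m < K ^ 2 → (m.divisors.card : ℝ) ≤ Dv) :
    ∑ s ∈ Ioo (-((2 * K : ℕ) : ℤ)) (2 * K : ℕ), ∑ u ∈ Ioo (-(K : ℤ)) K, ∑ w ∈ Ioo (-(K : ℤ)) K,
      fw R Z r (s * n + r * (u * w)) ≤
    R ^ 2 * (22 * Dv * K) + 56 * R * Z * (1 + Real.log M) * Dv *
      (1 / (r : ℝ) ^ 2 + (K : ℝ) ^ 2 / (r * N)) := by
  have hr0 : (0 : ℝ) < r := by exact_mod_cast (by omega : 0 < r)
  have hN1 : 1 ≤ N := by
    have : (1 : ℤ) ≤ N := hr.trans hrN
    exact_mod_cast this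
  have hN0 : (0 : ℝ) < N := by exact_mod_cast hN1
  have hn0 : (0 : ℝ) < n := lt_of_lt_of_le hN0 (by exact_mod_cast hn)
  have hnN : (N : ℝ) ≤ n := by exact_mod_cast hn
  have hK1 : (1 : ℝ) ≤ K := by exact_mod_cast hK
  have hRZ : 0 ≤ R * Z := mul_nonneg hR hZ
  set Y : ℕ := K ^ 2 with hY
  have hYr : (Y : ℝ) = (K : ℝ) ^ 2 := by rw [hY]; push_cast; ring
  have hY1 : 1 ≤ Y := Nat.one_le_pow _ _ hK
  have hM1 : 1 ≤ M := by omega
  set HH : ℝ := 1 + Real.log M with hHH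
  have hHH1 : 1 ≤ HH := by
    have : 0 ≤ Real.log M := Real.log_natCast_nonneg M
    linarith
  have hKr : (r : ℝ) * K ≤ 2 * N := by exact_mod_cast hrK
  -- harmonic sums
  have hharm : ∀ M' : ℕ, M' ≤ M → ∀ c : ℝ, 0 ≤ c → ∑ m ∈ Icc 1 M', c * (1 / (m : ℝ)) ≤ c * HH := by
    intro M' hM' c hc
    rw [← mul_sum]
    apply mul_le_mul_of_nonneg_left _ hc
    refine le_trans ?_ (harm_le_log M)
    apply sum_le_sum_of_subset_of_nonneg (Icc_subset_Icc_right hM')
    intro m _ _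
    positivity
  -- step 1
  have h1 : ∀ s : ℤ, ∑ u ∈ Ioo (-(K : ℤ)) K, ∑ w ∈ Ioo (-(K : ℤ)) K,
      fw R Z r (s * n + r * (u * w)) ≤ 4 * K * fw R Z r (s * n) +
        2 * Dv * ∑ y ∈ Ioo (-(Y : ℤ)) Y, fw R Z r (s * n + r * y) := by
    intro s
    have := group K hK Dv (by linarith) hDv (fun y => fw R Z r (s * n + r * y))
      (fun y => fw_nonneg hR hZ hr _)
    simp only [mul_zero, add_zero] at this
    exact this
  have h2K : 1 ≤ 2 * K := by omega
  refine (sum_le_sum fun s _ => h1 s).trans ?_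
  rw [split0 _ h2K]
  -- s = 0
  have h2 : 4 * K * fw R Z r ((0 : ℤ) * n) +
        2 * Dv * ∑ y ∈ Ioo (-(Y : ℤ)) Y, fw R Z r ((0 : ℤ) * n + r * y) ≤
      4 * K * R ^ 2 + 2 * Dv * (R ^ 2 + R * Z / r ^ 2 * (2 * HH)) := by
    have e0 : fw R Z r ((0 : ℤ) * n) = R ^ 2 := by
      unfold fw
      rw [if_pos]
      rw [zero_mul, abs_zero]
      omega
    rw [e0]
    have e1 : ∑ y ∈ Ioo (-(Y : ℤ)) Y, fw R Z r ((0 : ℤ) * n + r * y) ≤
        R ^ 2 + R * Z / r ^ 2 * (2 * HH) := by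
      rw [split0 _ hY1]
      apply add_le_add
      · rw [mul_zero, add_zero, e0]
      · have e2 : ∀ y ∈ (Ioo (-(Y : ℤ)) Y).filter (fun y => y ≠ 0),
            fw R Z r ((0 : ℤ) * n + r * y) = (fun m : ℕ => R * Z / r ^ 2 * (1 / (m : ℝ))) y.natAbs := by
          intro y hy
          have hy0 := (mem_filter.1 hy).2
          unfold fw
          rw [zero_mul, zero_add, if_neg]
          · simp only
            rw [Nat.cast_natAbs, Int.cast_abs]
            push_cast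
            rw [abs_mul, abs_of_pos hr0]
            have : |(y : ℝ)| ≠ 0 := by
              rw [abs_ne_zero]
              exact_mod_cast hy0
            field_simp
          · rw [not_lt, abs_mul, abs_of_nonneg (by omega : 0 ≤ r)]
            have : 1 ≤ |y| := Int.one_le_abs hy0
            nlinarith
        rw [sum_congr rfl e2]
        have e3 := symm_sum Y (fun m : ℕ => R * Z / r ^ 2 * (1 / (m : ℝ))) (fun m => by positivity)
        refine e3.trans ?_
        have e4 := hharm Y (by omega) (R * Z / r ^ 2) (by positivity)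
        linarith
    have : 0 ≤ 2 * Dv := by linarith
    have := mul_le_mul_of_nonneg_left e1 this
    linarith
  -- s ≠ 0
  have h3 : ∀ s ∈ (Ioo (-((2 * K : ℕ) : ℤ)) (2 * K : ℕ)).filter (fun s => s ≠ 0),
      4 * K * fw R Z r (s * n) + 2 * Dv * ∑ y ∈ Ioo (-(Y : ℤ)) Y, fw R Z r (s * n + r * y) ≤
      (fun m : ℕ => (4 * K * (R * Z / (r * N)) + 2 * Dv * (R * Z / r * (4 * Y / N))) * (1 / (m : ℝ)) +
        (2 * Dv * R ^ 2 * (if (m : ℝ) * N < r * Y then 2 else 0) +
        2 * Dv * (R * Z / r) * (if (m : ℝ) * N < 2 * (r * Y) then 4 / r * HH else 0))) s.natAbs := by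
    intro s hs
    rw [mem_filter, mem_Ioo] at hs
    have hs0 := hs.2
    have hs1 : 1 ≤ |s| := Int.one_le_abs hs0
    have hsn : (0 : ℝ) < |(s : ℝ)| := abs_pos.2 (by exact_mod_cast hs0)
    have habs : |s * (n : ℤ)| = |s| * n := by
      rw [abs_mul, Nat.abs_cast]
    have habsr : |((s * n : ℤ) : ℝ)| = |(s : ℝ)| * n := by
      push_cast
      rw [abs_mul, Nat.abs_cast]
    have hnat : ((s.natAbs : ℕ) : ℝ) = |(s : ℝ)| := by
      rw [Nat.cast_natAbs, Int.cast_abs]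
    simp only
    rw [hnat]
    -- first term
    have e1 : fw R Z r (s * n) ≤ R * Z / (r * N) * (1 / |(s : ℝ)|) := by
      unfold fw
      rw [if_neg]
      · rw [habsr, div_mul_div_comm, mul_one]
        apply div_le_div_of_nonneg_left hRZ (by positivity)
        calc (r : ℝ) * N * |(s : ℝ)| ≤ r * n * |(s : ℝ)| := by gcongr
          _ = _ := by ring
      · rw [not_lt, habs]
        have : (N : ℤ) ≤ n := by exact_mod_cast hn
        nlinarith [abs_nonneg s]
    -- the row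
    have e2 := row_le R Z r (s * n) Y
    have e3 : ((((Ioo (-(Y : ℤ)) Y).filter (fun y => |s * n + r * y| < r)).card : ℕ) : ℝ) ≤
        if |(s : ℝ)| * N < r * Y then 2 else 0 := by
      have := cnt_le r hr (s * n) Y
      rw [habs] at this
      split_ifs at this with h5
      · have h6 : |(s : ℝ)| * n < r * Y := by
          rw [← Int.cast_abs]
          exact_mod_cast h5
        rw [if_pos (lt_of_le_of_lt (mul_le_mul_of_nonneg_left hnN hsn.le) h6)]
        exact_mod_cast this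
      · rw [Nat.le_zero] at this
        rw [this]
        split_ifs <;> norm_num
    have e4 : ∑ y ∈ (Ioo (-(Y : ℤ)) Y).filter (fun y => r ≤ |s * n + r * y|),
        (1 : ℝ) / |((s * n + r * y : ℤ) : ℝ)| ≤
        (if |(s : ℝ)| * N < 2 * (r * Y) then 4 / r * HH else 0) + 4 * Y / N * (1 / |(s : ℝ)|) := by
      by_cases h5 : |(s : ℝ)| * N < 2 * (r * Y)
      · rw [if_pos h5]
        have h6 := A_le1 r hr (s * n) Y M (by
          rw [habs]
          have : |s| ≤ 2 * K := by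
            rw [abs_le]; omega
          have h7 : |s| * (n : ℤ) ≤ 2 * K * n := mul_le_mul_of_nonneg_right this (by positivity)
          have h8 : ((2 * K * n + Y + 1 : ℕ) : ℤ) ≤ M := by exact_mod_cast hM
          push_cast at h8
          linarith)
        have h7 : 0 ≤ 4 * (Y : ℝ) / N * (1 / |(s : ℝ)|) := by positivity
        linarith
      · rw [if_neg h5, zero_add]
        have h6 : 2 * (r * (Y : ℤ)) ≤ |s * (n : ℤ)| := by
          rw [habs]
          push Not at h5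
          have h7 : 2 * ((r : ℝ) * Y) ≤ |(s : ℝ)| * n :=
            h5.trans (mul_le_mul_of_nonneg_left hnN hsn.le)
          rw [← Int.cast_abs] at h7
          exact_mod_cast h7
        have hn0' : (n : ℤ) ≠ 0 := by
          have : 0 < n := by omega
          omega
        have h7 := A_le2 r hr (s * n) (mul_ne_zero hs0 hn0') Y h6
        refine h7.trans ?_
        rw [habsr, div_mul_div_comm, mul_one]
        apply div_le_div_of_nonneg_left (by positivity) (by positivity)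
        calc (N : ℝ) * |(s : ℝ)| ≤ n * |(s : ℝ)| := by gcongr
          _ = _ := by ring
    rw [e2]
    have hRZr : 0 ≤ R * Z / r := by positivity
    have f1 : 4 * (K : ℝ) * fw R Z r (s * n) ≤ 4 * K * (R * Z / (r * N) * (1 / |(s : ℝ)|)) :=
      mul_le_mul_of_nonneg_left e1 (by positivity)
    have f2 := mul_le_mul_of_nonneg_left e3 (sq_nonneg R)
    have f3 := mul_le_mul_of_nonneg_left e4 hRZr
    have f4 := mul_le_mul_of_nonneg_left (add_le_add f2 f3) (by linarith : 0 ≤ 2 * Dv)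
    calc _ ≤ 4 * K * (R * Z / (r * N) * (1 / |(s : ℝ)|)) + _ := add_le_add f1 f4
      _ = _ := by ring
  have h4 := sum_le_sum h3
  have h5 := symm_sum (2 * K) (fun m : ℕ =>
    (4 * K * (R * Z / (r * N)) + 2 * Dv * (R * Z / r * (4 * Y / N))) * (1 / (m : ℝ)) +
        (2 * Dv * R ^ 2 * (if (m : ℝ) * N < r * Y then 2 else 0) +
        2 * Dv * (R * Z / r) * (if (m : ℝ) * N < 2 * (r * Y) then 4 / r * HH else 0)))
    (fun m => by
      have : 0 ≤ Dv := by linarith
      have i1 : (0 : ℝ) ≤ (if (m : ℝ) * N < r * Y then 2 else 0) := by split_ifs <;> norm_num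
      have i2 : (0 : ℝ) ≤ (if (m : ℝ) * N < 2 * (r * Y) then 4 / r * HH else 0) := by
        split_ifs <;> positivity
      positivity)
  have h6 := h4.trans h5
  have h7 : 2 * ∑ m ∈ Icc 1 (2 * K),
      ((4 * K * (R * Z / (r * N)) + 2 * Dv * (R * Z / r * (4 * Y / N))) * (1 / (m : ℝ)) +
        (2 * Dv * R ^ 2 * (if (m : ℝ) * N < r * Y then 2 else 0) +
        2 * Dv * (R * Z / r) * (if (m : ℝ) * N < 2 * (r * Y) then 4 / r * HH else 0))) ≤
      2 * ((4 * K * (R * Z / (r * N)) + 2 * Dv * (R * Z / r * (4 * Y / N))) * HH +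
        (2 * Dv * R ^ 2 * (2 * (r * Y / N)) + 2 * Dv * (R * Z / r) *
          (4 / r * HH * (2 * (r * Y) / N)))) := by
    apply mul_le_mul_of_nonneg_left _ (by norm_num)
    rw [sum_add_distrib, sum_add_distrib]
    have hDv0 : 0 ≤ Dv := by linarith
    apply add_le_add
    · apply hharm (2 * K) _ _ (by positivity)
      have : 2 * K ≤ 2 * K * n := Nat.le_mul_of_pos_right _ (by omega)
      omega
    · apply add_le_add
      · rw [← mul_sum]
        apply mul_le_mul_of_nonneg_left _ (by positivity)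
        exact cntsum (2 * K) N hN1 (r * Y) 2 (by positivity) (by norm_num)
      · rw [← mul_sum]
        apply mul_le_mul_of_nonneg_left _ (by positivity)
        exact cntsum (2 * K) N hN1 (2 * (r * Y)) (4 / r * HH) (by positivity) (by positivity)
  refine (add_le_add h2 (h6.trans h7)).trans ?_
  have hrY : (r : ℝ) * Y / N ≤ 2 * K := by
    rw [div_le_iff₀ hN0, hYr]
    nlinarith
  have hDv0 : 0 ≤ Dv := by linarith
  -- the quadratic part
  have g1 : 2 * (2 * Dv * R ^ 2 * (2 * (r * Y / N))) ≤ 16 * Dv * K * R ^ 2 := by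
    have := mul_le_mul_of_nonneg_left hrY (by positivity : 0 ≤ 8 * Dv * R ^ 2)
    linarith
  have g2 : 4 * K * R ^ 2 + 2 * Dv * R ^ 2 ≤ 6 * Dv * K * R ^ 2 := by
    have a1 : (K : ℝ) ≤ Dv * K := by nlinarith
    have a2 : Dv ≤ Dv * K := by nlinarith
    have a3 : 0 ≤ R ^ 2 := sq_nonneg R
    nlinarith
  -- the rest
  have g3 : 2 * Dv * (R * Z / r ^ 2 * (2 * HH)) = 4 * (R * Z * HH * Dv * (1 / (r : ℝ) ^ 2)) := by
    field_simp; ring
  have g4 : 2 * (4 * K * (R * Z / (r * N))) * HH ≤ 8 * (R * Z * HH * Dv * ((K : ℝ) ^ 2 / (r * N))) := by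
    have a1 : (K : ℝ) ≤ Dv * K ^ 2 := by nlinarith
    have a2 : 0 ≤ 8 * (R * Z / (r * N)) * HH := by positivity
    have := mul_le_mul_of_nonneg_left a1 a2
    calc _ = 8 * (R * Z / (r * N)) * HH * K := by ring
      _ ≤ _ := this
      _ = _ := by ring
  have g5 : 2 * (2 * Dv * (R * Z / r * (4 * Y / N))) * HH =
      16 * (R * Z * HH * Dv * ((K : ℝ) ^ 2 / (r * N))) := by
    rw [hYr]
    field_simp
    ring
  have g6 : 2 * (2 * Dv * (R * Z / r) * (4 / r * HH * (2 * (r * Y) / N))) =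
      32 * (R * Z * HH * Dv * ((K : ℝ) ^ 2 / (r * N))) := by
    rw [hYr]
    field_simp
    ring
  have g7 : 0 ≤ R * Z * HH * Dv * (1 / (r : ℝ) ^ 2) := by positivity
  have g8 : 0 ≤ R * Z * HH * Dv * ((K : ℝ) ^ 2 / (r * N)) := by positivity
  nlinarith

end Pool.Agent.K6.H70.SI
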