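import Pool.Agent.K6.H70.SI.Kern
import Pool.Agent.K6.H70.SI.Total

/-! The fourth moment over a progression. -/

set_option autoImplicit false

namespace Pool.Agent.K6.H70.SI

open Finset Pool.Agent.K6.H70.MT

/-- the polynomial with frequencies in `S` -/
noncomputable def G (S : Finset ℕ) (b : ℕ → ℂ) (t : ℝ) : ℂ :=
  ∑ n ∈ S, b n * Complex.exp (Complex.I * (((t : ℝ) * Real.log n : ℝ) : ℂ))

theorem G_sq (S : Finset ℕ) (b : ℕ → ℂ) (t : ℝ) :
    G S b t ^ 2 = ∑ p ∈ S ×ˢ S, (b p.1 * b p.2) *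
      Complex.exp (Complex.I * (((t : ℝ) * (Real.log p.1 + Real.log p.2) : ℝ) : ℂ)) := by
  unfold G
  rw [sq, sum_mul_sum, sum_product]
  apply sum_congr rfl
  intro m _
  apply sum_congr rfl
  intro n _
  have : Complex.exp (Complex.I * (((t : ℝ) * (Real.log m + Real.log n) : ℝ) : ℂ)) =
      Complex.exp (Complex.I * (((t : ℝ) * Real.log m : ℝ) : ℂ)) *
      Complex.exp (Complex.I * (((t : ℝ) * Real.log n : ℝ) : ℂ)) := by
    rw [← Complex.exp_add]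
    congr 1
    push_cast
    ring
  rw [this]
  ring

/-- the kernel at a quadruple -/
theorem kk_fw (N T : ℕ) (hN : 1 ≤ N) (r Q : ℤ) (hr : 1 ≤ r) (n1 n2 n3 n4 : ℕ)
    (h1 : N ≤ n1 ∧ n1 ≤ 2 * N) (h2 : N ≤ n2 ∧ n2 ≤ 2 * N) (h3 : N ≤ n3 ∧ n3 ≤ 2 * N)
    (h4 : N ≤ n4 ∧ n4 ≤ 2 * N) (hQ : (n1 : ℤ) * n2 - n3 * n4 = r * Q) :
    ‖kk (2 * T) (Real.log n1 + Real.log n2 - (Real.log n3 + Real.log n4))‖ ^ 2 ≤
      fw (2 * T) (4 * Real.pi * N ^ 2) r Q := by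
  have hr0 : (0 : ℝ) < r := by exact_mod_cast (by omega : 0 < r)
  have hN0 : (0 : ℝ) < N := by exact_mod_cast hN
  unfold fw
  split_ifs with hq
  · have := kk_le (2 * T) (Real.log n1 + Real.log n2 - (Real.log n3 + Real.log n4))
    have h5 := pow_le_pow_left₀ (norm_nonneg _) this 2
    push_cast at h5
    exact h5
  · push Not at hq
    have hQ0 : Q ≠ 0 := by
      intro h
      rw [h, abs_zero] at hq
      omega
    have hPne : (n1 : ℤ) * n2 - n3 * n4 ≠ 0 := by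
      rw [hQ]
      exact mul_ne_zero (by omega) hQ0
    have c1 : (0 : ℝ) < n1 := lt_of_lt_of_le hN0 (by exact_mod_cast h1.1)
    have c2 : (0 : ℝ) < n2 := lt_of_lt_of_le hN0 (by exact_mod_cast h2.1)
    have c3 : (0 : ℝ) < n3 := lt_of_lt_of_le hN0 (by exact_mod_cast h3.1)
    have c4 : (0 : ℝ) < n4 := lt_of_lt_of_le hN0 (by exact_mod_cast h4.1)
    have hx : (1 : ℤ) ≤ (n1 : ℤ) * n2 := by
      have a1 : 1 ≤ n1 := hN.trans h1.1
      have a2 : 1 ≤ n2 := hN.trans h2.1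
      have := Nat.mul_le_mul a1 a2
      exact_mod_cast (by simpa using this)
    have hy : (1 : ℤ) ≤ (n3 : ℤ) * n4 := by
      have a1 : 1 ≤ n3 := hN.trans h3.1
      have a2 : 1 ≤ n4 := hN.trans h4.1
      have := Nat.mul_le_mul a1 a2
      exact_mod_cast (by simpa using this)
    have hxB : (((n1 : ℤ) * n2 : ℤ) : ℝ) ≤ 4 * (N : ℝ) ^ 2 := by
      have a1 : (n1 : ℝ) ≤ 2 * N := by exact_mod_cast h1.2
      have a2 : (n2 : ℝ) ≤ 2 * N := by exact_mod_cast h2.2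
      push_cast
      nlinarith
    have hyB : (((n3 : ℤ) * n4 : ℤ) : ℝ) ≤ 4 * (N : ℝ) ^ 2 := by
      have a1 : (n3 : ℝ) ≤ 2 * N := by exact_mod_cast h3.2
      have a2 : (n4 : ℝ) ≤ 2 * N := by exact_mod_cast h4.2
      push_cast
      nlinarith
    have hlog := log_sub_ge hx hy hxB hyB
    have e1 : Real.log (((n1 : ℤ) * n2 : ℤ) : ℝ) = Real.log n1 + Real.log n2 := by
      push_cast
      exact Real.log_mul c1.ne' c2.ne'
    have e2 : Real.log (((n3 : ℤ) * n4 : ℤ) : ℝ) = Real.log n3 + Real.log n4 := by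
      push_cast
      exact Real.log_mul c3.ne' c4.ne'
    rw [e1, e2] at hlog
    set δ : ℝ := Real.log n1 + Real.log n2 - (Real.log n3 + Real.log n4) with hδ
    have hP0 : (0 : ℝ) < |(((n1 : ℤ) * n2 - (n3 : ℤ) * n4 : ℤ) : ℝ)| :=
      abs_pos.2 (by exact_mod_cast hPne)
    have hδ0 : 0 < |δ| := lt_of_lt_of_le (by positivity) hlog
    have hlN : ∀ n : ℕ, N ≤ n → n ≤ 2 * N → Real.log N ≤ Real.log n ∧
        Real.log n ≤ Real.log N + Real.log 2 := by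
      intro n hn1 hn2
      constructor
      · exact Real.log_le_log hN0 (by exact_mod_cast hn1)
      · rw [← Real.log_mul hN0.ne' (by norm_num)]
        apply Real.log_le_log (lt_of_lt_of_le hN0 (by exact_mod_cast hn1))
        rw [mul_comm]
        exact_mod_cast hn2
    have a1 := hlN n1 h1.1 h1.2
    have a2 := hlN n2 h2.1 h2.2
    have a3 := hlN n3 h3.1 h3.2
    have a4 := hlN n4 h4.1 h4.2
    have hl2 := Real.log_two_lt_d9
    have hπ := Real.pi_gt_three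
    have hup : |δ| ≤ Real.pi := by
      rw [abs_le]
      constructor <;> linarith
    have h5 := kk_bound (2 * T) (abs_pos.1 hδ0) hup
    refine h5.trans ?_
    push_cast
    rw [mul_div_assoc]
    apply mul_le_mul_of_nonneg_left _ (by positivity)
    have hQr : (0 : ℝ) < r * |(Q : ℝ)| := mul_pos hr0 (abs_pos.2 (by exact_mod_cast hQ0))
    rw [div_le_div_iff₀ hδ0 hQr]
    have e3 : |(((n1 : ℤ) * n2 - (n3 : ℤ) * n4 : ℤ) : ℝ)| = r * |(Q : ℝ)| := by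
      rw [hQ]
      push_cast
      rw [abs_mul, abs_of_pos hr0]
    rw [e3, div_le_iff₀ (by positivity)] at hlog
    have := mul_le_mul_of_nonneg_left hlog Real.pi_pos.le
    linarith

theorem four (N K T : ℕ) (a r : ℤ) (S : Finset ℕ) (hr : 1 ≤ r) (hrN : r ≤ N) (hK : 1 ≤ K)
    (hrK : r * K ≤ 2 * N) (hS : ∀ n ∈ S, N ≤ n ∧ n ≤ 2 * N)
    (hSa : ∀ n ∈ S, ∃ k : ℤ, 0 ≤ k ∧ k < K ∧ (n : ℤ) = a + r * k) (Dv : ℝ)
    (hDv1 : 1 ≤ Dv) (hDv : ∀ m : ℕ, 1 ≤ m → m < K ^ 2 → (m.divisors.card : ℝ) ≤ Dv)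
    (hT : 1 ≤ T) (b : ℕ → ℂ) (hb : ∀ n, ‖b n‖ ≤ 1) :
    ∑ t ∈ Icc (1 : ℕ) T, ‖G S b t‖ ^ 4 ≤ 88 * Dv * (T * (K : ℝ) ^ 2) +
      448 * Real.pi * (1 + Real.log ((4 * K * N + K ^ 2 + 1 : ℕ) : ℝ)) * Dv *
        ((N : ℝ) ^ 2 * K / (r : ℝ) ^ 2 + N * (K : ℝ) ^ 3 / r) := by
  classical
  have hr0 : (0 : ℝ) < r := by exact_mod_cast (by omega : 0 < r)
  have hN1 : 1 ≤ N := by
    have : (1 : ℤ) ≤ N := hr.trans hrN
    exact_mod_cast this
  have hN0 : (0 : ℝ) < N := by exact_mod_cast hN1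
  have hT0 : (0 : ℝ) < T := by exact_mod_cast hT
  choose! k hk using hSa
  have hSK : S.card ≤ K := by
    have h1 : S.card ≤ (Ico (0 : ℤ) K).card := by
      apply card_le_card_of_injOn k
      · intro n hn
        rw [mem_coe, mem_Ico]
        exact ⟨(hk n hn).1, (hk n hn).2.1⟩
      · intro n hn m hm h
        have h2 := (hk n hn).2.2
        have h3 := (hk m hm).2.2
        rw [h] at h2
        exact_mod_cast h2.trans h3.symm
    rw [Int.card_Ico] at h1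
    omega
  have h1 := kern_mean (S ×ˢ S) (fun p => b p.1 * b p.2) (fun p _ => by
    rw [norm_mul]
    exact mul_le_one₀ (hb _) (norm_nonneg _) (hb _)) (fun p => Real.log p.1 + Real.log p.2) T
  have h2 : ∀ t : ℕ, ‖∑ p ∈ S ×ˢ S, (fun p : ℕ × ℕ => b p.1 * b p.2) p *
      Complex.exp (Complex.I * (((t : ℝ) * (fun p : ℕ × ℕ => Real.log p.1 + Real.log p.2) p : ℝ) : ℂ))‖ ^ 2 =
      ‖G S b t‖ ^ 4 := by
    intro t
    simp only
    rw [← G_sq, norm_pow, ← pow_mul]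
  simp only at h2
  simp only [h2] at h1
  -- the map
  set φ : (ℕ × ℕ) × (ℕ × ℕ) → ℕ × (ℤ × (ℤ × ℤ)) := fun q =>
    (q.2.1, (k q.1.1 - k q.2.1 - k q.2.2 + k q.1.2, (k q.1.1 - k q.2.1, k q.1.2 - k q.2.1))) with hφ
  set Z : ℝ := 4 * Real.pi * N ^ 2 with hZ
  have hZ0 : 0 ≤ Z := by positivity
  set F : ℕ × (ℤ × (ℤ × ℤ)) → ℝ := fun x => fw (2 * T) Z r (x.2.1 * x.1 + r * (x.2.2.1 * x.2.2.2)) with hF
  have h3 : ∑ p ∈ S ×ˢ S, ∑ p' ∈ S ×ˢ S,
      ‖kk (2 * T) (Real.log p.1 + Real.log p.2 - (Real.log p'.1 + Real.log p'.2))‖ ^ 2 ≤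
      ∑ q ∈ (S ×ˢ S) ×ˢ (S ×ˢ S), F (φ q) := by
    rw [← sum_product']
    apply sum_le_sum
    intro q hq
    rw [mem_product, mem_product, mem_product] at hq
    obtain ⟨⟨q1, q2⟩, q3, q4⟩ := hq
    simp only [hF, hφ]
    apply kk_fw N T hN1 r _ hr _ _ _ _ (hS _ q1) (hS _ q2) (hS _ q3) (hS _ q4)
    have a1 := (hk _ q1).2.2
    have a2 := (hk _ q2).2.2
    have a3 := (hk _ q3).2.2
    have a4 := (hk _ q4).2.2
    rw [a1, a2, a3, a4]
    ring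
  have h4 : ∑ q ∈ (S ×ˢ S) ×ˢ (S ×ˢ S), F (φ q) ≤
      ∑ x ∈ S ×ˢ (Ioo (-((2 * K : ℕ) : ℤ)) (2 * K : ℕ) ×ˢ (Ioo (-(K : ℤ)) K ×ˢ Ioo (-(K : ℤ)) K)), F x := by
    have hinj : Set.InjOn φ ((S ×ˢ S) ×ˢ (S ×ˢ S) : Finset _) := by
      intro q hq q' hq' h
      rw [mem_coe, mem_product, mem_product, mem_product] at hq hq'
      simp only [hφ, Prod.mk.injEq] at h
      obtain ⟨e1, e2, e3, e4⟩ := h
      have a1 := (hk _ hq.1.1).2.2
      have a2 := (hk _ hq.1.2).2.2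
      have a3 := (hk _ hq.2.1).2.2
      have a4 := (hk _ hq.2.2).2.2
      have b1 := (hk _ hq'.1.1).2.2
      have b2 := (hk _ hq'.1.2).2.2
      have b3 := (hk _ hq'.2.1).2.2
      have b4 := (hk _ hq'.2.2).2.2
      rw [e1] at e2 e3 e4
      have f1 : k q.1.1 = k q'.1.1 := by linarith
      have f2 : k q.1.2 = k q'.1.2 := by linarith
      have f4 : k q.2.2 = k q'.2.2 := by linarith
      have g1 : q.1.1 = q'.1.1 := by
        rw [f1] at a1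
        exact_mod_cast a1.trans b1.symm
      have g2 : q.1.2 = q'.1.2 := by
        rw [f2] at a2
        exact_mod_cast a2.trans b2.symm
      have g4 : q.2.2 = q'.2.2 := by
        rw [f4] at a4
        exact_mod_cast a4.trans b4.symm
      exact Prod.ext (Prod.ext g1 g2) (Prod.ext e1 g4)
    rw [← sum_image hinj]
    apply sum_le_sum_of_subset_of_nonneg
    · intro x hx
      rw [mem_image] at hx
      obtain ⟨q, hq, rfl⟩ := hx
      rw [mem_product, mem_product, mem_product] at hq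
      have a1 := hk _ hq.1.1
      have a2 := hk _ hq.1.2
      have a3 := hk _ hq.2.1
      have a4 := hk _ hq.2.2
      rw [mem_product, mem_product, mem_product, mem_Ioo, mem_Ioo, mem_Ioo]
      simp only [hφ]
      refine ⟨hq.2.1, ⟨?_, ?_⟩, ⟨?_, ?_⟩, ?_, ?_⟩ <;> push_cast <;> linarith [a1.1, a1.2.1, a2.1, a2.2.1, a3.1, a3.2.1, a4.1, a4.2.1]
    · intro x _ _
      exact fw_nonneg (by positivity) hZ0 hr _
  have h5 : ∑ x ∈ S ×ˢ (Ioo (-((2 * K : ℕ) : ℤ)) (2 * K : ℕ) ×ˢ (Ioo (-(K : ℤ)) K ×ˢ Ioo (-(K : ℤ)) K)), F x ≤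
      K * ((2 * T) ^ 2 * (22 * Dv * K) + 56 * (2 * T) * Z *
        (1 + Real.log ((4 * K * N + K ^ 2 + 1 : ℕ) : ℝ)) * Dv *
        (1 / (r : ℝ) ^ 2 + (K : ℝ) ^ 2 / (r * N))) := by
    rw [sum_product]
    have h6 : ∀ n ∈ S, ∑ y ∈ (Ioo (-((2 * K : ℕ) : ℤ)) (2 * K : ℕ) ×ˢ (Ioo (-(K : ℤ)) K ×ˢ Ioo (-(K : ℤ)) K)),
        F (n, y) ≤ (2 * T) ^ 2 * (22 * Dv * K) + 56 * (2 * T) * Z *
        (1 + Real.log ((4 * K * N + K ^ 2 + 1 : ℕ) : ℝ)) * Dv *
        (1 / (r : ℝ) ^ 2 + (K : ℝ) ^ 2 / (r * N)) := by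
      intro n hn
      rw [sum_product]
      simp only [sum_product]
      have hM : 2 * K * n + K ^ 2 + 1 ≤ 4 * K * N + K ^ 2 + 1 := by
        have := Nat.mul_le_mul_left (2 * K) (hS n hn).2
        have e : 2 * K * (2 * N) = 4 * K * N := by ring
        omega
      exact total (R := 2 * T) (Z := Z) (by positivity) hZ0 K N n (4 * K * N + K ^ 2 + 1) r hr hrN hK
        hrK (hS n hn).1 hM Dv hDv1 hDv
    refine (sum_le_sum h6).trans ?_
    rw [sum_const, nsmul_eq_mul]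
    apply mul_le_mul_of_nonneg_right
    · exact_mod_cast hSK
    · have hlog : 0 ≤ Real.log ((4 * K * N + K ^ 2 + 1 : ℕ) : ℝ) := Real.log_natCast_nonneg _
      have : 0 ≤ Dv := by linarith
      positivity
  have h7 := h1.trans (h3.trans (h4.trans h5))
  have h8 : (T : ℝ) * ∑ t ∈ Icc (1 : ℕ) T, ‖G S b t‖ ^ 4 ≤ T * (88 * Dv * (T * (K : ℝ) ^ 2) +
      448 * Real.pi * (1 + Real.log ((4 * K * N + K ^ 2 + 1 : ℕ) : ℝ)) * Dv *
        ((N : ℝ) ^ 2 * K / (r : ℝ) ^ 2 + N * (K : ℝ) ^ 3 / r)) := by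
    refine h7.trans (le_of_eq ?_)
    rw [hZ]
    field_simp
    ring
  exact le_of_mul_le_mul_left h8 hT0

end Pool.Agent.K6.H70.SI
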