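import Pool.Agent.K6.H70.SI.Sums

/-! The sum over all quadruples with one fixed member. -/

set_option autoImplicit false

namespace Pool.Agent.K6.H70.SI

open Finset

theorem group (K : ℕ) (hK : 1 ≤ K) (Dv : ℝ) (hDv0 : 0 ≤ Dv)
    (hDv : ∀ m : ℕ, 1 ≤ m → m < K ^ 2 → (m.divisors.card : ℝ) ≤ Dv) (g : ℤ → ℝ) (hg : ∀ y, 0 ≤ g y) :
    ∑ u ∈ Ioo (-(K : ℤ)) K, ∑ w ∈ Ioo (-(K : ℤ)) K, g (u * w) ≤
      4 * K * g 0 + 2 * Dv * ∑ y ∈ Ioo (-((K ^ 2 : ℕ) : ℤ)) (K ^ 2 : ℕ), g y := by
  classical
  set S := Ioo (-(K : ℤ)) K with hS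
  have hcS : S.card ≤ 2 * K := by
    rw [hS, Int.card_Ioo]
    omega
  rw [← sum_product', ← sum_filter_add_sum_filter_not (S ×ˢ S) (fun p => p.1 * p.2 = 0)]
  apply add_le_add
  · have h1 : ∀ p ∈ (S ×ˢ S).filter (fun p => p.1 * p.2 = 0), g (p.1 * p.2) = g 0 := by
      intro p hp
      rw [(mem_filter.1 hp).2]
    rw [sum_congr rfl h1, sum_const, nsmul_eq_mul]
    apply mul_le_mul_of_nonneg_right _ (hg 0)
    have h2 : (S ×ˢ S).filter (fun p => p.1 * p.2 = 0) ⊆
        S.image (fun w => ((0 : ℤ), w)) ∪ S.image (fun u => (u, (0 : ℤ))) := by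
      intro p hp
      rw [mem_filter, mem_product] at hp
      rw [mem_union, mem_image, mem_image]
      rcases mul_eq_zero.1 hp.2 with h | h
      · left
        exact ⟨p.2, hp.1.2, by ext <;> simp [h]⟩
      · right
        exact ⟨p.1, hp.1.1, by ext <;> simp [h]⟩
    have h3 : ((S ×ˢ S).filter (fun p => p.1 * p.2 = 0)).card ≤ 4 * K := by
      calc _ ≤ _ := card_le_card h2
        _ ≤ _ := card_union_le _ _
        _ ≤ S.card + S.card := add_le_add card_image_le card_image_le
        _ ≤ 4 * K := by omega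
    exact_mod_cast h3
  · have hmaps : ∀ p ∈ (S ×ˢ S).filter (fun p => ¬ p.1 * p.2 = 0),
        p.1 * p.2 ∈ Ioo (-((K ^ 2 : ℕ) : ℤ)) (K ^ 2 : ℕ) := by
      intro p hp
      rw [mem_filter, mem_product, hS, mem_Ioo, mem_Ioo] at hp
      have h1 : |p.1| ≤ K - 1 := by
        rw [abs_le]; omega
      have h2 : |p.2| ≤ K - 1 := by
        rw [abs_le]; omega
      have h3 : |p.1 * p.2| ≤ (K - 1) * (K - 1) := by
        rw [abs_mul]
        exact mul_le_mul h1 h2 (abs_nonneg _) (by omega)
      have h4 : |p.1 * p.2| < (K : ℤ) ^ 2 := by nlinarith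
      rw [mem_Ioo]
      push_cast
      exact abs_lt.1 h4
    rw [← sum_fiberwise_of_maps_to hmaps, mul_sum]
    apply sum_le_sum
    intro y hy
    have h1 : ∀ p ∈ ((S ×ˢ S).filter (fun p => ¬ p.1 * p.2 = 0)).filter (fun p => p.1 * p.2 = y),
        g (p.1 * p.2) = g y := by
      intro p hp
      rw [(mem_filter.1 hp).2]
    rw [sum_congr rfl h1, sum_const, nsmul_eq_mul]
    apply mul_le_mul_of_nonneg_right _ (hg y)
    by_cases hy0 : y = 0
    · have h2 : ((S ×ˢ S).filter (fun p => ¬ p.1 * p.2 = 0)).filter (fun p => p.1 * p.2 = y) = ∅ := by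
        rw [filter_eq_empty_iff]
        intro p hp hpy
        rw [hy0] at hpy
        exact (mem_filter.1 hp).2 hpy
      rw [h2, card_empty, Nat.cast_zero]
      positivity
    · have hyn : y.natAbs ≠ 0 := Int.natAbs_ne_zero.2 hy0
      have h2 : (((S ×ˢ S).filter (fun p => ¬ p.1 * p.2 = 0)).filter (fun p => p.1 * p.2 = y)).card ≤
          2 * y.natAbs.divisors.card := by
        have h3 : (((S ×ˢ S).filter (fun p => ¬ p.1 * p.2 = 0)).filter (fun p => p.1 * p.2 = y)).card ≤
            (y.natAbs.divisors.image (fun n : ℕ => (n : ℤ)) ∪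
              y.natAbs.divisors.image (fun n : ℕ => -(n : ℤ))).card := by
          apply card_le_card_of_injOn (fun p => p.1)
          · intro p hp
            rw [mem_coe, mem_filter] at hp
            have hd : p.1.natAbs ∣ y.natAbs := by
              rw [← hp.2, Int.natAbs_mul]
              exact dvd_mul_right _ _
            rw [mem_coe, mem_union, mem_image, mem_image]
            rcases Int.natAbs_eq p.1 with h | h
            · left
              exact ⟨p.1.natAbs, Nat.mem_divisors.2 ⟨hd, hyn⟩, h.symm⟩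
            · right
              exact ⟨p.1.natAbs, Nat.mem_divisors.2 ⟨hd, hyn⟩, h.symm⟩
          · intro p hp p' hp' h
            rw [mem_coe, mem_filter] at hp hp'
            have h' : p.1 = p'.1 := h
            have h4 : p.1 * p.2 = p.1 * p'.2 := by rw [hp.2, h', hp'.2]
            have h5 : p.1 ≠ 0 := by
              intro h6
              rw [h6, zero_mul] at hp
              exact hy0 hp.2.symm
            exact Prod.ext h' (mul_left_cancel₀ h5 h4)
        refine h3.trans ((card_union_le _ _).trans ?_)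
        have := card_image_le (s := y.natAbs.divisors) (f := fun n : ℕ => (n : ℤ))
        have := card_image_le (s := y.natAbs.divisors) (f := fun n : ℕ => -(n : ℤ))
        omega
      have h3 : (y.natAbs.divisors.card : ℝ) ≤ Dv := by
        apply hDv
        · omega
        · rw [mem_Ioo] at hy
          omega
      calc (((((S ×ˢ S).filter (fun p => ¬ p.1 * p.2 = 0)).filter
            (fun p => p.1 * p.2 = y)).card : ℕ) : ℝ) ≤ ((2 * y.natAbs.divisors.card : ℕ) : ℝ) := by
            exact_mod_cast h2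
        _ = 2 * (y.natAbs.divisors.card : ℝ) := by push_cast; ring
        _ ≤ 2 * Dv := by linarith

end Pool.Agent.K6.H70.SI
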