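import Pool.Agent.K6.H70.MT.Mean2

/-! The mean square over the integers `1, …, T` of an exponential sum. -/

set_option autoImplicit false

namespace Pool.Agent.K6.H70.SI

open Finset MeasureTheory Pool.Agent.K6.H70.MT

theorem int_cube_zero (c : ℝ) : ∫ _α in cube 0, c = c := by
  rw [setIntegral_const, measureReal_def, volume_cube]
  simp

theorem kern_mean {ι : Type*} [DecidableEq ι] (A : Finset ι) (a : ι → ℂ) (ha : ∀ i ∈ A, ‖a i‖ ≤ 1)
    (lam : ι → ℝ) (T : ℕ) :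
    (T : ℝ) * ∑ t ∈ Icc (1 : ℕ) T, ‖∑ i ∈ A, a i * Complex.exp (Complex.I * (((t : ℝ) * lam i : ℝ) : ℂ))‖ ^ 2 ≤
      ∑ i ∈ A, ∑ j ∈ A, ‖kk (2 * T) (lam i - lam j)‖ ^ 2 := by
  set g : ℤ → ℝ := fun s => ‖∑ i ∈ A, a i * Complex.exp (Complex.I * (((s : ℝ) * lam i : ℝ) : ℂ))‖ ^ 2
    with hg
  have h1 := window_le g (fun s => by positivity) T (2 * T) le_rfl
  have h2 := shifts (d := 0) A a ha lam (fun _ => 0) (2 * T) 1
  have h3 : ∀ u w : ℕ, ∫ α in cube 0,
      ‖∑ i ∈ A, a i * Complex.exp (Complex.I * ((((u : ℝ) - w) / 1 * lam i : ℝ) : ℂ)) *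
        ev α ((fun _ => 0 : ι → Fin 0 → ℤ) i)‖ ^ 2 = g ((u : ℤ) - w) := by
    intro u w
    have h4 : ∀ α : Fin 0 → ℝ, ‖∑ i ∈ A, a i *
        Complex.exp (Complex.I * ((((u : ℝ) - w) / 1 * lam i : ℝ) : ℂ)) *
        ev α ((fun _ => 0 : ι → Fin 0 → ℤ) i)‖ ^ 2 = g ((u : ℤ) - w) := by
      intro α
      rw [hg]
      simp only
      congr 2
      apply sum_congr rfl
      intro i _
      have : ev α (0 : Fin 0 → ℤ) = 1 := by
        unfold ev
        simp
      rw [this, mul_one, div_one]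
      push_cast
      rfl
    simp only [h4]
    exact int_cube_zero _
  simp only [h3] at h2
  simp only [filter_true, div_one] at h2
  have h7 := h1.trans h2
  have h8 : (((2 * T : ℕ) : ℝ) / 2) = T := by push_cast; ring
  rw [h8] at h7
  exact h7

/-- the bound for the kernel -/
theorem kk_bound (R : ℕ) {x : ℝ} (hx0 : x ≠ 0) (hx : |x| ≤ Real.pi) :
    ‖kk R x‖ ^ 2 ≤ R * (Real.pi / |x|) := by
  rw [sq]
  exact mul_le_mul (kk_le R x) (kk_le' R hx0 hx) (norm_nonneg _) (Nat.cast_nonneg _)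

end Pool.Agent.K6.H70.SI
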