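import Pool.Agent.K6.H70.SI.Four
import Pool.Agent.Y959.Her.Mom

/-! All even moments, and the form with `N^ε`. -/

set_option autoImplicit false

namespace Pool.Agent.K6.H70.SI

open Finset

theorem G_eq (N : ℕ) (S : Finset ℕ) (hS : ∀ n ∈ S, n ∈ Icc 1 N) (b : ℕ → ℂ) (t : ℝ) :
    G S b t = Pool.Agent.TH705.DL.DP N (fun n => if n ∈ S then b n else 0) t := by
  unfold G Pool.Agent.TH705.DL.DP Pool.Agent.TH705.DL.ph
  have h1 : ∀ n ∈ Icc 1 N, (if n ∈ S then b n else 0) * Complex.exp (Complex.I * (t : ℂ) * (Real.log (n : ℝ) : ℂ)) =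
      if n ∈ S then b n * Complex.exp (Complex.I * (t : ℂ) * (Real.log (n : ℝ) : ℂ)) else 0 := by
    intro n _
    split_ifs <;> simp
  rw [sum_congr rfl h1, ← sum_filter]
  have h2 : (Icc 1 N).filter (fun n => n ∈ S) = S := by
    ext n
    rw [mem_filter]
    exact ⟨fun h => h.2, fun h => ⟨hS n h, h⟩⟩
  rw [h2]
  apply sum_congr rfl
  intro n _
  congr 2
  push_cast
  ring

theorem mom (N : ℕ) (hN : 1 ≤ N) (S : Finset ℕ) (hS : ∀ n ∈ S, n ∈ Icc 1 N) (K : ℕ)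
    (hSK : S.card ≤ K) (b : ℕ → ℂ) (hb : ∀ n, ‖b n‖ ≤ 1) (m : ℕ) (D : ℝ)
    (hD : ∀ x ∈ Icc 1 (N ^ m), (x.divisors.card : ℝ) ≤ D) (T : ℕ) (hT : 1 ≤ T) :
    ∑ t ∈ Icc (1 : ℕ) T, ‖G S b t‖ ^ (2 * m) ≤
      (2 + Real.log ((N : ℝ) ^ m) ^ 2) * (T + 4 * (N : ℝ) ^ m * (1 + Real.log ((N : ℝ) ^ m))) *
        (D ^ m * (K : ℝ) ^ m) := by
  classical
  set a : ℕ → ℂ := fun n => if n ∈ S then b n else 0 with ha
  have hY1 : 1 ≤ N ^ m := Nat.one_le_pow _ _ hN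
  set P : Finset ℝ := (Icc (1 : ℕ) T).image (fun u : ℕ => (u : ℝ)) with hP
  have hinj : Set.InjOn (fun u : ℕ => (u : ℝ)) (Icc (1 : ℕ) T) := fun u _ v _ h => Nat.cast_injective h
  have hsep : Pool.Agent.TH705.DL.Sep P := by
    intro t ht u hu htu
    rw [hP, mem_image] at ht hu
    obtain ⟨x, _, rfl⟩ := ht
    obtain ⟨y, _, rfl⟩ := hu
    have hxy : (x : ℤ) ≠ y := by
      intro h
      apply htu
      exact_mod_cast h
    have h2 : (1 : ℤ) ≤ |(x : ℤ) - y| := Int.one_le_abs (sub_ne_zero.2 hxy)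
    exact_mod_cast h2
  have hx : ∀ t ∈ P, (1 : ℝ) ≤ t ∧ t ≤ T := by
    intro t ht
    rw [hP, mem_image] at ht
    obtain ⟨x, hx, rfl⟩ := ht
    rw [mem_Icc] at hx
    exact ⟨by exact_mod_cast hx.1, by exact_mod_cast hx.2⟩
  have hT1 : (1 : ℝ) ≤ T := by exact_mod_cast hT
  have h := Pool.Agent.TH705.DL.block (N ^ m) hY1 (Pool.Agent.Y959.Her.pw N a m) P hsep 1 T hT1 hx
  have h1 : ∑ t ∈ Icc (1 : ℕ) T, ‖G S b t‖ ^ (2 * m) =
      ∑ t ∈ P, ‖Pool.Agent.TH705.DL.DP (N ^ m) (Pool.Agent.Y959.Her.pw N a m) t‖ ^ 2 := by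
    rw [hP, sum_image hinj]
    apply sum_congr rfl
    intro u _
    rw [← Pool.Agent.Y959.Her.pow_eq, norm_pow, ← pow_mul, mul_comm 2 m, G_eq N S hS]
  rw [h1]
  refine h.trans ?_
  push_cast
  have h2 := Pool.Agent.Y959.Her.pw_l2 N a m D hD hN m le_rfl
  have h3 : ∑ n ∈ Icc 1 N, ‖a n‖ ^ 2 ≤ K := by
    have h4 : ∀ n ∈ Icc 1 N, ‖a n‖ ^ 2 ≤ if n ∈ S then (1 : ℝ) else 0 := by
      intro n _
      simp only [ha]
      split_ifs
      · exact pow_le_one₀ (norm_nonneg _) (hb n)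
      · simp
    refine (sum_le_sum h4).trans ?_
    rw [← sum_filter, sum_const, nsmul_eq_mul, mul_one]
    have h5 : ((Icc 1 N).filter (fun n => n ∈ S)).card ≤ K := by
      refine le_trans (card_le_card ?_) hSK
      intro n hn
      exact (mem_filter.1 hn).2
    exact_mod_cast h5
  have hD0 : 0 ≤ D := (Nat.cast_nonneg _).trans (hD 1 (mem_Icc.2 ⟨le_rfl, hY1⟩))
  have h6 : 0 ≤ ∑ n ∈ Icc 1 N, ‖a n‖ ^ 2 := sum_nonneg fun _ _ => by positivity
  have hYr : (1 : ℝ) ≤ (N : ℝ) ^ m := by exact_mod_cast hY1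
  have hlog : 0 ≤ Real.log ((N : ℝ) ^ m) := Real.log_nonneg hYr
  have h7 : ∑ m_1 ∈ Icc 1 (N ^ m), ‖Pool.Agent.Y959.Her.pw N a m m_1‖ ^ 2 ≤ D ^ m * (K : ℝ) ^ m :=
    h2.trans (mul_le_mul_of_nonneg_left (pow_le_pow_left₀ h6 h3 m) (by positivity))
  have h8 : (T : ℝ) + 1 - 1 + 4 * (N : ℝ) ^ m * (1 + Real.log ((N : ℝ) ^ m)) =
      T + 4 * (N : ℝ) ^ m * (1 + Real.log ((N : ℝ) ^ m)) := by ring
  rw [h8]
  exact mul_le_mul_of_nonneg_left h7 (by positivity)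

/-- logarithms are absorbed by `N^ε` -/
theorem log_absorb (m : ℕ) (ε : ℝ) (hε : 0 < ε) : ∃ K : ℝ, 1 ≤ K ∧ ∀ x : ℝ, 1 ≤ x →
    (1 + Real.log x) ^ m ≤ K * x ^ ε := by
  rcases Nat.eq_zero_or_pos m with rfl | hm
  · exact ⟨1, le_rfl, fun x hx => by simpa using Real.one_le_rpow hx hε.le⟩
  have hm' : (0 : ℝ) < m := by exact_mod_cast hm
  refine ⟨(1 + m / ε) ^ m, one_le_pow₀ (by linarith [div_pos hm' hε]), fun x hx => ?_⟩
  have h1 : Real.log x ≤ x ^ (ε / m) / (ε / m) := Real.log_le_rpow_div (by linarith) (by positivity)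
  have h2 : (1 : ℝ) ≤ x ^ (ε / m) := Real.one_le_rpow hx (by positivity)
  have h3 : 1 + Real.log x ≤ (1 + m / ε) * x ^ (ε / m) := by
    calc 1 + Real.log x ≤ x ^ (ε / m) + x ^ (ε / m) / (ε / m) := add_le_add h2 h1
      _ = _ := by field_simp
  calc (1 + Real.log x) ^ m ≤ ((1 + m / ε) * x ^ (ε / m)) ^ m := by
        apply pow_le_pow_left₀ _ h3
        linarith [Real.log_nonneg hx]
    _ = _ := by
        rw [mul_pow]
        congr 1
        rw [← Real.rpow_natCast, ← Real.rpow_mul (by linarith)]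
        congr 1
        field_simp

/-- the even moments with `N^ε` -/
theorem mom_eps (m : ℕ) (hm : 1 ≤ m) (ε : ℝ) (hε : 0 < ε) : ∃ C : ℝ, 1 ≤ C ∧ ∀ N T K : ℕ, 1 ≤ N →
    1 ≤ T → ∀ S : Finset ℕ, (∀ n ∈ S, N ≤ n ∧ n ≤ 2 * N) → S.card ≤ K → ∀ b : ℕ → ℂ,
      (∀ n, ‖b n‖ ≤ 1) → ∑ t ∈ Icc (1 : ℕ) T, ‖G S b t‖ ^ (2 * m) ≤
        C * (N : ℝ) ^ ε * ((T + (N : ℝ) ^ m) * (K : ℝ) ^ m) := by
  have hm0 : (0 : ℝ) < m := by exact_mod_cast hm
  obtain ⟨C1, hC1, hlog⟩ := log_absorb 3 (ε / 2) (by positivity)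
  obtain ⟨C2, hC2, hdiv⟩ := Pool.Agent.Helper112.divisor_bound (ε / (2 * m * m)) (by positivity)
  have hC21 : 1 ≤ C2 := by
    have := hdiv 1 le_rfl
    simpa using this
  set c3 : ℝ := (2 ^ m : ℝ) ^ (ε / (2 * m * m)) with hc3
  have hc31 : 1 ≤ c3 := Real.one_le_rpow (one_le_pow₀ (by norm_num)) (by positivity)
  refine ⟨(2 + (m : ℝ) ^ 2) * (1 + 4 * 2 ^ m * (1 + m)) * (C2 * c3) ^ m * C1, ?_, ?_⟩
  · have a1 : (1 : ℝ) ≤ 2 + (m : ℝ) ^ 2 := by nlinarith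
    have a2 : (1 : ℝ) ≤ 1 + 4 * 2 ^ m * (1 + m) := by
      have : (0 : ℝ) ≤ 4 * 2 ^ m * (1 + m) := by positivity
      linarith
    have a3 : (1 : ℝ) ≤ (C2 * c3) ^ m := one_le_pow₀ (one_le_mul_of_one_le_of_one_le hC21 hc31)
    exact one_le_mul_of_one_le_of_one_le (one_le_mul_of_one_le_of_one_le
      (one_le_mul_of_one_le_of_one_le a1 a2) a3) hC1
  · intro N T K hN hT S hS hSK b hb
    have hN1 : (1 : ℝ) ≤ N := by exact_mod_cast hN
    have hN0 : (0 : ℝ) < N := by linarith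
    have hT0 : (0 : ℝ) ≤ T := Nat.cast_nonneg T
    have hS' : ∀ n ∈ S, n ∈ Icc 1 (2 * N) := fun n hn => by
      have := hS n hn
      rw [mem_Icc]
      omega
    set D : ℝ := C2 * (c3 * (N : ℝ) ^ (ε / (2 * m))) with hD
    have h1 := mom (2 * N) (by omega) S hS' K hSK b hb m D (fun x hx => by
      rw [mem_Icc] at hx
      refine (hdiv x hx.1).trans ?_
      rw [hD]
      apply mul_le_mul_of_nonneg_left _ hC2.le
      have hx1 : (x : ℝ) ≤ (2 : ℝ) ^ m * (N : ℝ) ^ m := by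
        rw [← mul_pow]
        exact_mod_cast hx.2
      calc (x : ℝ) ^ (ε / (2 * m * m)) ≤ ((2 : ℝ) ^ m * (N : ℝ) ^ m) ^ (ε / (2 * m * m)) :=
            Real.rpow_le_rpow (Nat.cast_nonneg _) hx1 (by positivity)
        _ = _ := by
            rw [Real.mul_rpow (by positivity) (by positivity), hc3]
            congr 1
            rw [← Real.rpow_natCast (N : ℝ) m, ← Real.rpow_mul hN0.le]
            congr 1
            field_simp) T hT
    refine h1.trans ?_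
    have hlogN : 0 ≤ Real.log N := Real.log_nonneg hN1
    have e0 : Real.log (((2 * N : ℕ) : ℝ) ^ m) ≤ m * (1 + Real.log N) := by
      rw [Real.log_pow]
      apply mul_le_mul_of_nonneg_left _ hm0.le
      push_cast
      rw [Real.log_mul (by norm_num) hN0.ne']
      have := Real.log_two_lt_d9
      linarith
    have e0' : 0 ≤ Real.log (((2 * N : ℕ) : ℝ) ^ m) := by
      rw [Real.log_pow]
      exact mul_nonneg hm0.le (Real.log_natCast_nonneg _)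
    have hL1 : 1 ≤ 1 + Real.log N := by linarith
    have e1 : 2 + Real.log (((2 * N : ℕ) : ℝ) ^ m) ^ 2 ≤ (2 + (m : ℝ) ^ 2) * (1 + Real.log N) ^ 2 := by
      have := pow_le_pow_left₀ e0' e0 2
      nlinarith
    have e2 : (T : ℝ) + 4 * ((2 * N : ℕ) : ℝ) ^ m * (1 + Real.log (((2 * N : ℕ) : ℝ) ^ m)) ≤
        (1 + 4 * 2 ^ m * (1 + m)) * (1 + Real.log N) * (T + (N : ℝ) ^ m) := by
      have a1 : 1 + Real.log (((2 * N : ℕ) : ℝ) ^ m) ≤ (1 + m) * (1 + Real.log N) := by nlinarith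
      have a2 : ((2 * N : ℕ) : ℝ) ^ m = 2 ^ m * (N : ℝ) ^ m := by
        push_cast
        rw [mul_pow]
      rw [a2] at a1 ⊢
      have hNm : 0 ≤ (N : ℝ) ^ m := by positivity
      have h2m : 0 ≤ (2 : ℝ) ^ m := by positivity
      calc (T : ℝ) + 4 * (2 ^ m * (N : ℝ) ^ m) * (1 + Real.log (2 ^ m * (N : ℝ) ^ m)) ≤
          T + 4 * (2 ^ m * (N : ℝ) ^ m) * ((1 + m) * (1 + Real.log N)) := by gcongr
        _ = 1 * T + 4 * 2 ^ m * (1 + m) * (1 + Real.log N) * (N : ℝ) ^ m := by ring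
        _ ≤ (1 + 4 * 2 ^ m * (1 + m)) * (1 + Real.log N) * T +
            (1 + 4 * 2 ^ m * (1 + m)) * (1 + Real.log N) * (N : ℝ) ^ m := by
            have b1 : 0 ≤ 4 * (2 : ℝ) ^ m * (1 + m) := by positivity
            gcongr
            · nlinarith
            · linarith
        _ = _ := by ring
    have e3 : D ^ m = (C2 * c3) ^ m * (N : ℝ) ^ (ε / 2) := by
      rw [hD, ← mul_assoc, mul_pow]
      congr 1
      rw [← Real.rpow_natCast, ← Real.rpow_mul hN0.le]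
      congr 1
      field_simp
    have e4 := hlog N hN1
    have hDK : 0 ≤ D ^ m * (K : ℝ) ^ m := by
      rw [e3]
      positivity
    have e5 : (N : ℝ) ^ ε = (N : ℝ) ^ (ε / 2) * (N : ℝ) ^ (ε / 2) := by
      rw [← Real.rpow_add hN0]
      congr 1
      ring
    calc (2 + Real.log (((2 * N : ℕ) : ℝ) ^ m) ^ 2) *
        (T + 4 * ((2 * N : ℕ) : ℝ) ^ m * (1 + Real.log (((2 * N : ℕ) : ℝ) ^ m))) *
        (D ^ m * (K : ℝ) ^ m) ≤ ((2 + (m : ℝ) ^ 2) * (1 + Real.log N) ^ 2) *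
        ((1 + 4 * 2 ^ m * (1 + m)) * (1 + Real.log N) * (T + (N : ℝ) ^ m)) *
        (D ^ m * (K : ℝ) ^ m) := by
          apply mul_le_mul_of_nonneg_right _ hDK
          exact mul_le_mul e1 e2 (by positivity) (by positivity)
      _ = (2 + (m : ℝ) ^ 2) * (1 + 4 * 2 ^ m * (1 + m)) * (C2 * c3) ^ m *
          (1 + Real.log N) ^ 3 * (N : ℝ) ^ (ε / 2) * ((T + (N : ℝ) ^ m) * (K : ℝ) ^ m) := by
          rw [e3]
          ring
      _ ≤ (2 + (m : ℝ) ^ 2) * (1 + 4 * 2 ^ m * (1 + m)) * (C2 * c3) ^ m *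
          (C1 * (N : ℝ) ^ (ε / 2)) * (N : ℝ) ^ (ε / 2) * ((T + (N : ℝ) ^ m) * (K : ℝ) ^ m) := by
          gcongr
      _ = _ := by
          rw [e5]
          ring

/-- the fourth moment with `N^ε` -/
theorem four_eps (ε : ℝ) (hε : 0 < ε) : ∃ C : ℝ, 1 ≤ C ∧ ∀ (N K T : ℕ) (a r : ℤ) (S : Finset ℕ),
    1 ≤ r → r ≤ N → 1 ≤ K → r * K ≤ 2 * N → (∀ n ∈ S, N ≤ n ∧ n ≤ 2 * N) →
    (∀ n ∈ S, ∃ k : ℤ, 0 ≤ k ∧ k < K ∧ (n : ℤ) = a + r * k) → 1 ≤ T → ∀ b : ℕ → ℂ,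
    (∀ n, ‖b n‖ ≤ 1) → ∑ t ∈ Icc (1 : ℕ) T, ‖G S b t‖ ^ 4 ≤ C * (N : ℝ) ^ ε *
      (T * (K : ℝ) ^ 2 + (N : ℝ) ^ 2 * K / (r : ℝ) ^ 2 + N * (K : ℝ) ^ 3 / r) := by
  obtain ⟨C1, hC1, hlog⟩ := log_absorb 1 (ε / 2) (by positivity)
  obtain ⟨C2, hC2, hdiv⟩ := Pool.Agent.Helper112.divisor_bound (ε / 4) (by positivity)
  have hC21 : 1 ≤ C2 := by
    have := hdiv 1 le_rfl
    simpa using this
  set c3 : ℝ := (4 : ℝ) ^ (ε / 4) with hc3
  have hc31 : 1 ≤ c3 := Real.one_le_rpow (by norm_num) (by positivity)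
  refine ⟨448 * Real.pi * 4 * (C2 * c3) * C1, ?_, ?_⟩
  · have a3 : (1 : ℝ) ≤ C2 * c3 := one_le_mul_of_one_le_of_one_le hC21 hc31
    have a4 : (1 : ℝ) ≤ 448 * Real.pi * 4 := by
      have := Real.pi_gt_three
      linarith
    exact one_le_mul_of_one_le_of_one_le (one_le_mul_of_one_le_of_one_le a4 a3) hC1
  · intro N K T a r S hr hrN hK hrK hS hSa hT b hb
    have hr0 : (0 : ℝ) < r := by exact_mod_cast (by omega : 0 < r)
    have hN1' : 1 ≤ N := by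
      have : (1 : ℤ) ≤ N := hr.trans hrN
      exact_mod_cast this
    have hN1 : (1 : ℝ) ≤ N := by exact_mod_cast hN1'
    have hN0 : (0 : ℝ) < N := by linarith
    have hT0 : (0 : ℝ) ≤ T := Nat.cast_nonneg T
    have hK2N : K ≤ 2 * N := by
      have h1 : (1 : ℤ) * K ≤ r * K := mul_le_mul_of_nonneg_right hr (by positivity)
      have h2 : (K : ℤ) ≤ 2 * N := by linarith
      exact_mod_cast h2
    have hKr : (K : ℝ) ≤ 2 * N := by exact_mod_cast hK2N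
    set D : ℝ := C2 * (c3 * (N : ℝ) ^ (ε / 2)) with hD
    have hNε : 1 ≤ (N : ℝ) ^ (ε / 2) := Real.one_le_rpow hN1 (by positivity)
    have hD1 : 1 ≤ D := one_le_mul_of_one_le_of_one_le hC21 (one_le_mul_of_one_le_of_one_le hc31 hNε)
    have h1 := four N K T a r S hr hrN hK hrK hS hSa D hD1 (fun m hm1 hm2 => by
      refine (hdiv m hm1).trans ?_
      rw [hD]
      apply mul_le_mul_of_nonneg_left _ hC2.le
      have hx1 : (m : ℝ) ≤ 4 * (N : ℝ) ^ 2 := by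
        have a1 : (m : ℝ) ≤ (K : ℝ) ^ 2 := by exact_mod_cast hm2.le
        have a2 : (K : ℝ) ^ 2 ≤ (2 * N) ^ 2 := pow_le_pow_left₀ (Nat.cast_nonneg _) hKr 2
        nlinarith
      calc (m : ℝ) ^ (ε / 4) ≤ (4 * (N : ℝ) ^ 2) ^ (ε / 4) :=
            Real.rpow_le_rpow (Nat.cast_nonneg _) hx1 (by positivity)
        _ = _ := by
            rw [Real.mul_rpow (by positivity) (by positivity), hc3]
            congr 1
            rw [← Real.rpow_natCast (N : ℝ) 2, ← Real.rpow_mul hN0.le]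
            congr 1
            push_cast
            ring) hT b hb
    refine h1.trans ?_
    have hlogN : 0 ≤ Real.log N := Real.log_nonneg hN1
    have hK0 : (0 : ℝ) ≤ K := Nat.cast_nonneg K
    have e1 : 1 + Real.log ((4 * K * N + K ^ 2 + 1 : ℕ) : ℝ) ≤ 4 * (1 + Real.log N) := by
      have a1 : ((4 * K * N + K ^ 2 + 1 : ℕ) : ℝ) ≤ 13 * (N : ℝ) ^ 2 := by
        push_cast
        nlinarith
      have a2 : Real.log ((4 * K * N + K ^ 2 + 1 : ℕ) : ℝ) ≤ Real.log (13 * (N : ℝ) ^ 2) :=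
        Real.log_le_log (by positivity) a1
      rw [Real.log_mul (by norm_num) (by positivity), Real.log_pow] at a2
      have a3 : Real.log 13 ≤ 3 := by
        have h16 : Real.log 13 ≤ Real.log 16 := Real.log_le_log (by norm_num) (by norm_num)
        have : (16 : ℝ) = 2 ^ 4 := by norm_num
        rw [this, Real.log_pow] at h16
        have := Real.log_two_lt_d9
        push_cast at h16
        linarith
      push_cast at a2 ⊢
      linarith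
    have e4 := hlog N hN1
    rw [pow_one] at e4
    have e5 : (N : ℝ) ^ ε = (N : ℝ) ^ (ε / 2) * (N : ℝ) ^ (ε / 2) := by
      rw [← Real.rpow_add hN0]
      congr 1
      ring
    have hπ := Real.pi_gt_three
    set X : ℝ := (N : ℝ) ^ 2 * K / (r : ℝ) ^ 2 + N * (K : ℝ) ^ 3 / r with hX
    have hX0 : 0 ≤ X := by positivity
    have hTK : 0 ≤ T * (K : ℝ) ^ 2 := by positivity
    have e6 : 448 * Real.pi * (1 + Real.log ((4 * K * N + K ^ 2 + 1 : ℕ) : ℝ)) * D ≤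
        448 * Real.pi * 4 * (C2 * c3) * C1 * (N : ℝ) ^ ε := by
      calc 448 * Real.pi * (1 + Real.log ((4 * K * N + K ^ 2 + 1 : ℕ) : ℝ)) * D ≤
          448 * Real.pi * (4 * (C1 * (N : ℝ) ^ (ε / 2))) * D := by
            have : 1 + Real.log ((4 * K * N + K ^ 2 + 1 : ℕ) : ℝ) ≤ 4 * (C1 * (N : ℝ) ^ (ε / 2)) := by
              linarith
            gcongr
        _ = _ := by
            rw [hD, e5]
            ring
    have e7 : 88 * D ≤ 448 * Real.pi * 4 * (C2 * c3) * C1 * (N : ℝ) ^ ε := by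
      calc 88 * D = 88 * (C2 * c3) * 1 * (1 * (N : ℝ) ^ (ε / 2)) := by rw [hD]; ring
        _ ≤ (448 * Real.pi * 4) * (C2 * c3) * C1 * ((N : ℝ) ^ (ε / 2) * (N : ℝ) ^ (ε / 2)) := by
            gcongr
            linarith
        _ = _ := by rw [e5]
    calc 88 * D * (T * (K : ℝ) ^ 2) +
        448 * Real.pi * (1 + Real.log ((4 * K * N + K ^ 2 + 1 : ℕ) : ℝ)) * D * X ≤
        448 * Real.pi * 4 * (C2 * c3) * C1 * (N : ℝ) ^ ε * (T * (K : ℝ) ^ 2) +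
        448 * Real.pi * 4 * (C2 * c3) * C1 * (N : ℝ) ^ ε * X := by gcongr
      _ = _ := by
        rw [hX]
        ring

end Pool.Agent.K6.H70.SI
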