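import Mathlib

/-! Arithmetic sums for the fourth moment over a progression. -/

set_option autoImplicit false

namespace Pool.Agent.K6.H70.SI

open Finset

theorem harm_le_log (M : ℕ) : ∑ m ∈ Icc 1 M, (1 : ℝ) / m ≤ 1 + Real.log M := by
  have h := harmonic_le_one_add_log M
  rw [harmonic_eq_sum_Icc] at h
  push_cast at h
  simpa [one_div] using h

theorem symm_sum (M : ℕ) (h : ℕ → ℝ) (h0 : ∀ m, 0 ≤ h m) :
    ∑ s ∈ (Ioo (-(M : ℤ)) M).filter (fun s => s ≠ 0), h s.natAbs ≤ 2 * ∑ m ∈ Icc 1 M, h m := by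
  have hmaps : ∀ s ∈ (Ioo (-(M : ℤ)) M).filter (fun s => s ≠ 0), s.natAbs ∈ Icc 1 M := by
    intro s hs
    rw [mem_filter, mem_Ioo] at hs
    rw [mem_Icc]
    omega
  rw [← sum_fiberwise_of_maps_to hmaps, mul_sum]
  apply sum_le_sum
  intro m _
  have h1 : ∀ s ∈ ((Ioo (-(M : ℤ)) M).filter (fun s => s ≠ 0)).filter (fun s => s.natAbs = m),
      h s.natAbs = h m := by
    intro s hs
    rw [(mem_filter.1 hs).2]
  rw [sum_congr rfl h1, sum_const, nsmul_eq_mul]
  apply mul_le_mul_of_nonneg_right _ (h0 m)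
  have h2 : ((Ioo (-(M : ℤ)) M).filter (fun s => s ≠ 0)).filter (fun s => s.natAbs = m) ⊆
      {(m : ℤ), -(m : ℤ)} := by
    intro s hs
    rw [mem_filter] at hs
    rw [mem_insert, mem_singleton]
    omega
  have h3 := (card_le_card h2).trans card_le_two
  exact_mod_cast h3

/-- at most two values of `y` with `|z + r y| < r`, none if `|z|` is large -/
theorem cnt_le (r : ℤ) (hr : 1 ≤ r) (z : ℤ) (Y : ℕ) :
    ((Ioo (-(Y : ℤ)) Y).filter (fun y => |z + r * y| < r)).card ≤ if |z| < r * Y then 2 else 0 := by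
  split_ifs with h
  · have h1 : (Ioo (-(Y : ℤ)) Y).filter (fun y => |z + r * y| < r) ⊆ {-(z / r), -(z / r) - 1} := by
      intro y hy
      rw [mem_filter, mem_Ioo, abs_lt] at hy
      rw [mem_insert, mem_singleton]
      have h2 := Int.mul_ediv_add_emod z r
      have h3 := Int.emod_nonneg z (by omega : r ≠ 0)
      have h4 := Int.emod_lt_of_pos z (by omega : 0 < r)
      set q := z / r
      set e := z % r
      have h5 : -2 < q + y := by
        by_contra hcon
        push Not at hcon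
        have : r * (q + y) ≤ r * (-2) := mul_le_mul_of_nonneg_left hcon (by omega)
        nlinarith
      have h6 : q + y < 1 := by
        by_contra hcon
        push Not at hcon
        have : r * 1 ≤ r * (q + y) := mul_le_mul_of_nonneg_left hcon (by omega)
        nlinarith
      omega
    exact (card_le_card h1).trans card_le_two
  · rw [Nat.le_zero, card_eq_zero, filter_eq_empty_iff]
    intro y hy hcon
    rw [mem_Ioo] at hy
    push Not at h
    have h1 : |r * y| ≤ r * (Y - 1) := by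
      rw [abs_mul, abs_of_nonneg (by omega : 0 ≤ r)]
      apply mul_le_mul_of_nonneg_left _ (by omega)
      rw [abs_le]
      omega
    have h2 : |z| ≤ |z + r * y| + |r * y| := by
      have := abs_sub (z + r * y) (r * y)
      rwa [add_sub_cancel_right] at this
    nlinarith

theorem A_le1 (r : ℤ) (hr : 1 ≤ r) (z : ℤ) (Y M : ℕ) (hM : |z| + Y + 1 ≤ M) :
    ∑ y ∈ (Ioo (-(Y : ℤ)) Y).filter (fun y => r ≤ |z + r * y|), (1 : ℝ) / |((z + r * y : ℤ) : ℝ)| ≤
      4 / r * (1 + Real.log M) := by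
  have hr0 : (0 : ℝ) < r := by exact_mod_cast (by omega : 0 < r)
  have h2 := Int.mul_ediv_add_emod z r
  have h3 := Int.emod_nonneg z (by omega : r ≠ 0)
  have h4 := Int.emod_lt_of_pos z (by omega : 0 < r)
  set q := z / r with hq
  set e := z % r
  have hqz : |q| ≤ |z| := by
    rw [hq]
    have := Int.natAbs_ediv_le_natAbs z r
    rw [Int.abs_eq_natAbs, Int.abs_eq_natAbs]
    exact_mod_cast this
  have h5 : ∀ y ∈ (Ioo (-(Y : ℤ)) Y).filter (fun y => r ≤ |z + r * y|),
      (1 : ℝ) / |((z + r * y : ℤ) : ℝ)| ≤ (fun s : ℤ => 2 / r * (1 / (s.natAbs : ℝ))) (q + y) ∧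
        q + y ∈ (Ioo (-(M : ℤ)) M).filter (fun s => s ≠ 0) := by
    intro y hy
    rw [mem_filter, mem_Ioo] at hy
    have hqy : q + y ≠ 0 := by
      intro h0
      have e1 : z + r * y = r * (q + y) + e := by rw [← h2]; ring
      rw [h0, mul_zero, zero_add] at e1
      have := hy.2
      rw [e1, abs_of_nonneg h3] at this
      omega
    have hkey : r * |q + y| ≤ 2 * |z + r * y| := by
      have e1 : z + r * y = r * (q + y) + e := by rw [← h2]; ring
      rcases lt_or_gt_of_ne hqy with hneg | hpos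
      · have h6 : z + r * y < 0 := by
          rw [e1]
          nlinarith
        have h7 := hy.2
        rw [abs_of_neg h6] at h7 ⊢
        rw [abs_of_neg hneg]
        nlinarith
      · have h6 : 0 ≤ z + r * y := by
          rw [e1]
          positivity
        rw [abs_of_nonneg h6, abs_of_pos hpos, e1]
        nlinarith [mul_pos (by omega : 0 < r) hpos]
    constructor
    · simp only
      have hn : (0 : ℝ) < ((q + y).natAbs : ℝ) := by
        exact_mod_cast Int.natAbs_pos.2 hqy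
      have hz : (0 : ℝ) < |((z + r * y : ℤ) : ℝ)| := by
        rw [← Int.cast_abs]
        exact_mod_cast (by omega : 0 < |z + r * y|)
      have hk : (r : ℝ) * ((q + y).natAbs : ℝ) ≤ 2 * |((z + r * y : ℤ) : ℝ)| := by
        rw [← Int.cast_abs, Nat.cast_natAbs]
        exact_mod_cast hkey
      rw [div_mul_div_comm, mul_one, div_le_div_iff₀ hz (by positivity)]
      linarith
    · rw [mem_filter, mem_Ioo]
      refine ⟨?_, hqy⟩
      have := abs_le.1 hqz
      have := abs_lt.1 (abs_lt.2 ⟨hy.1.1, hy.1.2⟩)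
      omega
  calc ∑ y ∈ (Ioo (-(Y : ℤ)) Y).filter (fun y => r ≤ |z + r * y|), (1 : ℝ) / |((z + r * y : ℤ) : ℝ)| ≤
      ∑ y ∈ (Ioo (-(Y : ℤ)) Y).filter (fun y => r ≤ |z + r * y|),
        (fun s : ℤ => 2 / r * (1 / (s.natAbs : ℝ))) (q + y) := sum_le_sum fun y hy => (h5 y hy).1
    _ = ∑ s ∈ ((Ioo (-(Y : ℤ)) Y).filter (fun y => r ≤ |z + r * y|)).image (fun y => q + y),
        (fun s : ℤ => 2 / r * (1 / (s.natAbs : ℝ))) s := by
        rw [sum_image fun a _ b _ h => by simpa using h]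
    _ ≤ ∑ s ∈ (Ioo (-(M : ℤ)) M).filter (fun s => s ≠ 0), 2 / r * (1 / (s.natAbs : ℝ)) := by
        apply sum_le_sum_of_subset_of_nonneg
        · intro s hs
          rw [mem_image] at hs
          obtain ⟨y, hy, rfl⟩ := hs
          exact (h5 y hy).2
        · intro s _ _
          positivity
    _ ≤ 2 * ∑ m ∈ Icc 1 M, 2 / r * (1 / (m : ℝ)) :=
        symm_sum M (fun m => 2 / r * (1 / (m : ℝ))) fun m => by positivity
    _ ≤ _ := by
        rw [← mul_sum, ← mul_assoc]
        have e4 : 2 * (2 / (r : ℝ)) = 4 / r := by ring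
        rw [e4]
        exact mul_le_mul_of_nonneg_left (harm_le_log M) (by positivity)

theorem A_le2 (r : ℤ) (hr : 1 ≤ r) (z : ℤ) (hz : z ≠ 0) (Y : ℕ) (h : 2 * (r * Y) ≤ |z|) :
    ∑ y ∈ (Ioo (-(Y : ℤ)) Y).filter (fun y => r ≤ |z + r * y|), (1 : ℝ) / |((z + r * y : ℤ) : ℝ)| ≤
      4 * Y / |(z : ℝ)| := by
  have hz0 : (0 : ℝ) < |(z : ℝ)| := abs_pos.2 (by exact_mod_cast hz)
  have h1 : ∀ y ∈ (Ioo (-(Y : ℤ)) Y).filter (fun y => r ≤ |z + r * y|),
      (1 : ℝ) / |((z + r * y : ℤ) : ℝ)| ≤ 2 / |(z : ℝ)| := by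
    intro y hy
    rw [mem_filter, mem_Ioo] at hy
    have h2 : |r * y| ≤ r * Y := by
      rw [abs_mul, abs_of_nonneg (by omega : 0 ≤ r)]
      apply mul_le_mul_of_nonneg_left _ (by omega)
      rw [abs_le]
      omega
    have h3 : |z| ≤ |z + r * y| + |r * y| := by
      have := abs_sub (z + r * y) (r * y)
      rwa [add_sub_cancel_right] at this
    have h4 : |z| ≤ 2 * |z + r * y| := by linarith
    have h5 : |(z : ℝ)| ≤ 2 * |((z + r * y : ℤ) : ℝ)| := by
      rw [← Int.cast_abs, ← Int.cast_abs]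
      exact_mod_cast h4
    rw [div_le_div_iff₀ (by linarith) hz0]
    linarith
  refine (sum_le_sum h1).trans ?_
  rw [sum_const, nsmul_eq_mul]
  have h2 : (((Ioo (-(Y : ℤ)) Y).filter (fun y => r ≤ |z + r * y|)).card : ℝ) ≤ 2 * Y := by
    have h3 := card_filter_le (Ioo (-(Y : ℤ)) Y) (fun y => r ≤ |z + r * y|)
    rw [Int.card_Ioo] at h3
    have h4 : ((Ioo (-(Y : ℤ)) Y).filter (fun y => r ≤ |z + r * y|)).card ≤ 2 * Y := by omega
    exact_mod_cast h4
  calc _ ≤ (2 * (Y : ℝ)) * (2 / |(z : ℝ)|) := mul_le_mul_of_nonneg_right h2 (by positivity)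
    _ = _ := by ring

end Pool.Agent.K6.H70.SI
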